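import Pool.Agent.Helper31.SusD.Grd
import Pool.Agent.Helper78.Gen2.Main

/-!
# Hardness almost everywhere by changing at most one word of each length

Every language in linear space can be changed at one word of each length at most, in such a way that
every device `e` which accepts infinitely many words accepts infinitely many words of the language, and
infinitely many words of its complement.
-/

namespace Pool.Agent.Helper31.Gen5

open Pool.Agent.Helper65.LinSpace Pool.Agent.Helper31.SusD Finset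

/-- The device of the requirement `i`, with a bit. -/
def ceb (i : ℕ) : ℕ := i - 2 ^ Nat.log 2 i

section defs

variable (U : ℕ → ℕ → ℕ) (F₀ : ℕ → ℕ)

/-- The number of the first word of length `n` which the device of the requirement `i` accepts (`2 ^ n`
if there is none), for `N = 2 ^ n`. -/
def fw (N i : ℕ) : ℕ := lst N fun t => lt01 0 (U (ceb i / 2) (N + t))

/-- The least requirement `i < n` which is not marked in `s` and accepts a word of length `n`, for
`N = 2 ^ n`. -/
def act (N n s : ℕ) : ℕ := lst n fun i => eq01 (dig 2 s i) 0 * lt01 (fw U N i) N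

/-- The requirements which have acted before or at the length `n`. -/
def upd (N n m s : ℕ) : ℕ :=
  tab 2 m fun j => ifz (eq01 j (act U N n s) * lt01 (act U N n s) n) (dig 2 s j) 1

/-- The requirements which have acted before the length `n`. -/
def stt : ℕ → ℕ := nrec 0 fun n s => upd U (2 ^ n) n (n + 1) s

/-- The same, for `n ≤ log₂ x`. -/
def stx (x : ℕ) : ℕ → ℕ :=
  nrec 0 fun n s => upd U (2 ^ min n (Nat.log 2 x)) n (min (n + 1) (Nat.log 2 x)) s

/-- The language. -/
def FF (x : ℕ) : ℕ :=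
  ifz (lt01 (act U (2 ^ Nat.log 2 x) (Nat.log 2 x) (stx U x (Nat.log 2 x))) (Nat.log 2 x) *
    eq01 x (2 ^ Nat.log 2 x + fw U (2 ^ Nat.log 2 x)
      (act U (2 ^ Nat.log 2 x) (Nat.log 2 x) (stx U x (Nat.log 2 x)))))
    (F₀ x) (ceb (act U (2 ^ Nat.log 2 x) (Nat.log 2 x) (stx U x (Nat.log 2 x))) % 2)

end defs

variable {U : ℕ → ℕ → ℕ} {F₀ : ℕ → ℕ}

theorem lt01_le1 (a b : ℕ) : lt01 a b ≤ 1 := by
  unfold lt01
  split_ifs <;> omega

theorem eq01_le1 (a b : ℕ) : eq01 a b ≤ 1 := by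
  unfold eq01
  split_ifs <;> omega

theorem mul_le1 {a b : ℕ} (ha : a ≤ 1) (hb : b ≤ 1) : a * b ≤ 1 := by
  calc a * b ≤ 1 * 1 := Nat.mul_le_mul ha hb
    _ = 1 := rfl

/-! ### Linear space -/

section ls

variable {α : Type} [Ctx α]

theorem LS.ceb {i : α → ℕ} (hi : LS i) : LS (fun a => ceb (i a)) := by
  unfold Gen5.ceb
  fun_prop

theorem LS.fw (hU : LS (fun z : ℕ × ℕ => U z.1 z.2)) {N i : α → ℕ} (hN : LS N) (hi : LS i) :
    LS (fun a => fw U (N a) (i a)) := by
  unfold Gen5.fw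
  refine LS.lst hN ?_ fun a m => lt01_le1 _ _
  refine LS.lt01 (LS.const 0) ?_
  have h1 : LS (fun a : α × ℕ => Gen5.ceb (i a.1)) := LS.ceb (i := fun a : α × ℕ => i a.1) (by fun_prop)
  exact LS.comp (g := fun z : ℕ × ℕ => U z.1 z.2)
    (f := fun a : α × ℕ => (Gen5.ceb (i a.1) / 2, N a.1 + a.2)) hU (by fun_prop)

theorem LS.act (hU : LS (fun z : ℕ × ℕ => U z.1 z.2)) {N n s : α → ℕ} (hN : LS N) (hn : LS n)
    (hs : LS s) : LS (fun a => act U (N a) (n a) (s a)) := by
  unfold Gen5.act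
  refine LS.lst hn ?_ fun a m => mul_le1 (eq01_le1 _ _) (lt01_le1 _ _)
  have h1 : LS (fun a : α × ℕ => Gen5.fw U (N a.1) a.2) :=
    LS.fw hU (N := fun a : α × ℕ => N a.1) (by fun_prop) (by fun_prop)
  have h2 : LS (fun a : α × ℕ => N a.1) := by fun_prop
  exact LS.mul (by fun_prop) (LS.lt01 h1 h2)

theorem LS.upd (hU : LS (fun z : ℕ × ℕ => U z.1 z.2)) {N n m s C : α → ℕ} (hN : LS N)
    (hn : LS n) (hm : LS m) (hs : LS s) (hC : LS C) (hb : ∀ a, 2 ^ m a ≤ C a) :
    LS (fun a => upd U (N a) (n a) (m a) (s a)) := by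
  unfold Gen5.upd
  have h1 : LS (fun a : α × ℕ => Gen5.act U (N a.1) (n a.1) (s a.1)) :=
    LS.act hU (N := fun a : α × ℕ => N a.1) (by fun_prop) (by fun_prop) (by fun_prop)
  have h2 : LS (fun a : α × ℕ => n a.1) := by fun_prop
  refine LS.tab (q := fun _ => 2) (C := C) (d := fun a j => ifz (eq01 j
    (Gen5.act U (N a) (n a) (s a)) * lt01 (Gen5.act U (N a) (n a) (s a)) (n a))
    (dig 2 (s a) j) 1) ?_ (LS.const 2) hm hC ?_ hb
  · exact LS.ifz (LS.mul (LS.eq01 (by fun_prop) h1) (LS.lt01 h1 h2)) (by fun_prop) (LS.const 1)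
  · intro a j _
    have := dig_lt (q := 2) (by norm_num) (s a) j
    unfold ifz
    split_ifs <;> omega

theorem two_pow_min_le (x n : ℕ) : 2 ^ min n (Nat.log 2 x) ≤ x + 1 := by
  refine (Nat.pow_le_pow_right (by norm_num) (min_le_right n (Nat.log 2 x))).trans ?_
  rcases Nat.eq_zero_or_pos x with h | h
  · rw [h]
    simp
  · exact (Nat.pow_log_le_self 2 h.ne').trans (Nat.le_succ x)

theorem LS.pmin {x n : α → ℕ} (hx : LS x) (hn : LS n) :
    LS (fun a => 2 ^ min (n a) (Nat.log 2 (x a))) :=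
  LS.pow_of_le (f := fun _ => 2) (g := fun a => min (n a) (Nat.log 2 (x a)))
    (C := fun a => x a + 1) (LS.const 2) (by fun_prop) (by fun_prop)
    fun a => two_pow_min_le (x a) (n a)

theorem stx_lt (x i : ℕ) : stx U x i ≤ x + 1 := by
  have h : ∀ N n m s : ℕ, upd U N n m s < 2 ^ m := by
    intro N n m s
    refine tab_lt fun j _ => ?_
    have := dig_lt (q := 2) (by norm_num) s j
    unfold ifz
    split_ifs <;> omega
  unfold stx
  rcases i with _ | i
  · rw [nrec_zero]
    exact Nat.zero_le _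
  · rw [nrec_succ]
    exact (h _ _ _ _).le.trans (two_pow_min_le x (i + 1))

theorem LS.stx (hU : LS (fun z : ℕ × ℕ => U z.1 z.2)) {x n : α → ℕ} (hx : LS x) (hn : LS n) :
    LS (fun a => stx U (x a) (n a)) := by
  unfold Gen5.stx
  refine LS.nrec (G := fun _ => 0) (N := n) (C := fun a => x a + 1)
    (K := fun a n s => Gen5.upd U (2 ^ min n (Nat.log 2 (x a))) n
      (min (n + 1) (Nat.log 2 (x a))) s) (LS.const 0) hn (by fun_prop) ?_ ?_
  · refine LS.upd hU (N := fun p : α × ℕ × ℕ => 2 ^ min p.2.1 (Nat.log 2 (x p.1)))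
      (n := fun p => p.2.1) (m := fun p => min (p.2.1 + 1) (Nat.log 2 (x p.1)))
      (s := fun p => p.2.2) (C := fun p => x p.1 + 1) ?_ (by fun_prop) (by fun_prop)
      (by fun_prop) (by fun_prop) fun p => two_pow_min_le _ _
    exact LS.pmin (x := fun p : α × ℕ × ℕ => x p.1) (n := fun p => p.2.1) (by fun_prop)
      (by fun_prop)
  · intro a i _
    exact stx_lt (x a) i

theorem LS.p2log {x : α → ℕ} (hx : LS x) : LS (fun a => 2 ^ Nat.log 2 (x a)) := by
  refine LS.congr (LS.pmin hx (n := fun a => Nat.log 2 (x a)) (by fun_prop)) fun a => ?_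
  rw [min_self]

theorem LS.FF (hU : LS (fun z : ℕ × ℕ => U z.1 z.2)) (hF : LS F₀) : LS (FF U F₀) := by
  unfold Gen5.FF
  have h0 : LS (fun x : ℕ => 2 ^ Nat.log 2 x) := LS.p2log LS.id
  have h1 : LS (fun x : ℕ => Gen5.stx U x (Nat.log 2 x)) := LS.stx hU LS.id (by fun_prop)
  have h2 : LS (fun x : ℕ => Gen5.act U (2 ^ Nat.log 2 x) (Nat.log 2 x)
      (Gen5.stx U x (Nat.log 2 x))) := LS.act hU h0 (by fun_prop) h1
  have h3 := LS.fw hU h0 h2
  refine LS.ifz (LS.mul (LS.lt01 h2 (by fun_prop)) (LS.eq01 LS.id (LS.add h0 h3))) hF ?_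
  exact LS.mod (LS.ceb h2) (LS.const 2)

end ls

/-! ### The requirements -/

theorem stt_succ (n : ℕ) : stt U (n + 1) = upd U (2 ^ n) n (n + 1) (stt U n) := by
  unfold stt
  rw [nrec_succ]

theorem stx_succ (x n : ℕ) : stx U x (n + 1) =
    upd U (2 ^ min n (Nat.log 2 x)) n (min (n + 1) (Nat.log 2 x)) (stx U x n) := by
  unfold stx
  rw [nrec_succ]

theorem stx_eq {x i : ℕ} (hi : i ≤ Nat.log 2 x) : stx U x i = stt U i := by
  induction i with
  | zero =>
    unfold stx stt
    rw [nrec_zero, nrec_zero]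
  | succ i ih =>
    rw [stx_succ, stt_succ, min_eq_left (by omega : i ≤ Nat.log 2 x), min_eq_left hi,
      ih (by omega)]

/-- The requirement which acts at the length `n`. -/
def ac (U : ℕ → ℕ → ℕ) (n : ℕ) : ℕ := act U (2 ^ n) n (stt U n)

theorem FF_eq {x n : ℕ} (hx : Nat.log 2 x = n) : FF U F₀ x =
    ifz (lt01 (ac U n) n * eq01 x (2 ^ n + fw U (2 ^ n) (ac U n))) (F₀ x) (ceb (ac U n) % 2) := by
  subst hx
  unfold FF ac
  rw [stx_eq le_rfl]

theorem upd_digit_lt (N n s j : ℕ) :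
    ifz (eq01 j (act U N n s) * lt01 (act U N n s) n) (dig 2 s j) 1 < 2 := by
  have := dig_lt (q := 2) (by norm_num) s j
  unfold ifz
  split_ifs <;> omega

theorem dig_stt_succ (n j : ℕ) (hj : j ≤ n) : dig 2 (stt U (n + 1)) j =
    ifz (eq01 j (ac U n) * lt01 (ac U n) n) (dig 2 (stt U n) j) 1 := by
  rw [stt_succ]
  unfold upd ac
  generalize stt U n = s
  exact dig_tab (fun i _ => upd_digit_lt (2 ^ n) n s i) (by omega)

theorem stt_lt (n : ℕ) : stt U n < 2 ^ n := by
  rcases n with _ | n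
  · unfold stt
    rw [nrec_zero]
    positivity
  · rw [stt_succ]
    exact tab_lt fun j _ => upd_digit_lt _ _ _ _

theorem dig_stt_zero {n j : ℕ} (hj : n ≤ j) : dig 2 (stt U n) j = 0 := by
  unfold dig
  rw [Nat.div_eq_of_lt (lt_of_lt_of_le (stt_lt n) (Nat.pow_le_pow_right (by norm_num) hj))]

/-- A requirement is marked if and only if it has acted. -/
theorem dig_stt (n j : ℕ) : dig 2 (stt U n) j ≠ 0 ↔ ∃ m < n, ac U m = j ∧ j < m := by
  induction n with
  | zero =>
    rw [dig_stt_zero (Nat.zero_le j)]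
    simp
  | succ n ih =>
    rcases Nat.lt_or_ge n j with hj | hj
    · rw [dig_stt_zero (by omega)]
      simp only [ne_eq, not_true_eq_false, false_iff, not_exists]
      rintro m ⟨h1, h2, h3⟩
      omega
    · rw [dig_stt_succ n j hj]
      by_cases h : j = ac U n ∧ ac U n < n
      · have h1 : eq01 j (ac U n) * lt01 (ac U n) n = 1 := by
          rw [eq01, if_pos h.1, lt01, if_pos h.2]
        rw [h1, ifz_ne one_ne_zero]
        simp only [ne_eq, one_ne_zero, not_false_eq_true, true_iff]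
        exact ⟨n, by omega, h.1.symm, by omega⟩
      · have h1 : eq01 j (ac U n) * lt01 (ac U n) n = 0 := by
          unfold eq01 lt01
          split_ifs <;> simp_all
        rw [h1, ifz_zero, ih]
        constructor
        · rintro ⟨m, h2, h3, h4⟩
          exact ⟨m, by omega, h3, h4⟩
        · rintro ⟨m, h2, h3, h4⟩
          rcases Nat.lt_succ_iff_lt_or_eq.1 h2 with h5 | h5
          · exact ⟨m, h5, h3, h4⟩
          · subst h5
            exact absurd ⟨h3.symm, by omega⟩ h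

theorem lt01_ne {a b : ℕ} : lt01 a b ≠ 0 ↔ a < b := by
  unfold lt01
  split_ifs with h <;> simp [h]

theorem eq01_ne {a b : ℕ} : eq01 a b ≠ 0 ↔ a = b := by
  unfold eq01
  split_ifs with h <;> simp [h]

/-- What happens if a requirement acts. -/
theorem ac_spec {n : ℕ} (h : ac U n < n) : dig 2 (stt U n) (ac U n) = 0 ∧
    fw U (2 ^ n) (ac U n) < 2 ^ n := by
  have h1 := lst_ne (p := fun i => eq01 (dig 2 (stt U n) i) 0 * lt01 (fw U (2 ^ n) i) (2 ^ n)) h
  exact ⟨eq01_ne.1 (left_ne_zero_of_mul h1), lt01_ne.1 (right_ne_zero_of_mul h1)⟩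

/-- The requirements act at most once. -/
theorem ac_inj {m n : ℕ} (hm : ac U m < m) (hn : ac U n < n) (h : ac U m = ac U n) : m = n := by
  have key : ∀ m n : ℕ, ac U m < m → ac U n < n → ac U m = ac U n → ¬m < n := by
    intro m n hm hn h hmn
    exact (dig_stt n (ac U n)).2 ⟨m, hmn, h, by omega⟩ (ac_spec hn).1
  rcases Nat.lt_trichotomy m n with h1 | h1 | h1
  · exact absurd h1 (key m n hm hn h)
  · exact h1
  · exact absurd h1 (key n m hn hm h.symm)

/-- If an unmarked requirement accepts a word then it, or a smaller one, acts. -/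
theorem ac_le {n i : ℕ} (hi : i < n) (h0 : dig 2 (stt U n) i = 0) {x : ℕ} (hx : Nat.log 2 x = n)
    (hx0 : x ≠ 0) (hU : U (ceb i / 2) x ≠ 0) : ac U n ≤ i := by
  have h1 : 2 ^ n ≤ x := by
    rw [← hx]
    exact Nat.pow_log_le_self 2 hx0
  have h2 : x < 2 ^ (n + 1) := by
    rw [← hx]
    exact Nat.lt_pow_succ_log_self (by norm_num) x
  have h3 : fw U (2 ^ n) i < 2 ^ n := by
    have h4 : x - 2 ^ n < 2 ^ n := by
      rw [pow_succ] at h2
      omega
    have h5 := (lst_spec (N := 2 ^ n) (p := fun t => lt01 0 (U (ceb i / 2) (2 ^ n + t))) h4 (by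
      show lt01 0 (U (ceb i / 2) (2 ^ n + (x - 2 ^ n))) ≠ 0
      rw [lt01_ne, show 2 ^ n + (x - 2 ^ n) = x by omega]
      exact Nat.pos_of_ne_zero hU)).2
    exact lt_of_le_of_lt h5 h4
  refine (lst_spec (N := n)
    (p := fun i => eq01 (dig 2 (stt U n) i) 0 * lt01 (fw U (2 ^ n) i) (2 ^ n)) hi ?_).2
  exact mul_ne_zero (eq01_ne.2 h0) (lt01_ne.2 h3)

theorem ceb_code {k v : ℕ} (hv : v < 2 ^ k) : Nat.log 2 (2 ^ k + v) = k ∧ ceb (2 ^ k + v) = v := by
  have h1 : Nat.log 2 (2 ^ k + v) = k := by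
    rw [Nat.log_eq_iff (Or.inr ⟨by norm_num, by positivity⟩)]
    exact ⟨by omega, by rw [pow_succ]; omega⟩
  refine ⟨h1, ?_⟩
  unfold ceb
  rw [h1]
  omega

/-- **Hardness almost everywhere.** A function in linear space can be changed at one word of each
length at most, such that every device which accepts infinitely many words accepts arbitrarily long
words with the value `b`, for `b = 0` and `b = 1`. -/
theorem bi (hU : LS (fun z : ℕ × ℕ => U z.1 z.2)) (hF : LS F₀) :
    ∃ F : ℕ → ℕ, LS F ∧ (∀ n : ℕ, ∃ v : ℕ, ∀ x, Nat.log 2 x = n → x ≠ v → F x = F₀ x) ∧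
      ∀ e b n₀ : ℕ, b < 2 → {x | x ≠ 0 ∧ U e x ≠ 0}.Infinite →
        ∃ x, x ≠ 0 ∧ n₀ ≤ Nat.log 2 x ∧ U e x ≠ 0 ∧ F x = b := by
  refine ⟨FF U F₀, LS.FF hU hF, fun n => ⟨2 ^ n + fw U (2 ^ n) (ac U n), fun x hx hne => ?_⟩, ?_⟩
  · rw [FF_eq hx, eq01, if_neg hne, mul_zero, ifz_zero]
  · intro e b n₀ hb hinf
    by_contra hno
    push Not at hno
    obtain ⟨k, hk1, hk2⟩ : ∃ k, n₀ ≤ k ∧ 2 * e + b < 2 ^ k :=
      ⟨n₀ + (2 * e + b), by omega, lt_of_lt_of_le Nat.lt_two_pow_self
        (Nat.pow_le_pow_right (by norm_num) (by omega))⟩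
    obtain ⟨hlog, hcode⟩ := ceb_code hk2
    set i := 2 ^ k + (2 * e + b) with hi
    have hki : k < i := by
      have := (Nat.lt_two_pow_self : k < 2 ^ k)
      omega
    have he : ceb i / 2 = e := by omega
    have hbb : ceb i % 2 = b := by omega
    -- the requirement never acts
    have h1 : ∀ n, ac U n = i → ¬i < n := by
      intro n hac hlt
      have hlt' : ac U n < n := by omega
      obtain ⟨-, h2⟩ := ac_spec hlt'
      rw [hac] at h2
      have h3 := lst_ne (p := fun t => lt01 0 (U (ceb i / 2) (2 ^ n + t))) h2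
      rw [he] at h3
      have h4 : U e (2 ^ n + fw U (2 ^ n) i) ≠ 0 := by
        have h5 := lt01_ne.1 h3
        unfold fw
        rw [he]
        omega
      obtain ⟨h6, -⟩ := ceb_code h2
      refine hno (2 ^ n + fw U (2 ^ n) i) (by positivity) (by omega) h4 ?_
      rw [FF_eq h6, hac, lt01, if_pos hlt, eq01, if_pos rfl, ifz_ne (by norm_num)]
      exact hbb
    have h0 : ∀ n, dig 2 (stt U n) i = 0 := by
      intro n
      by_contra h
      obtain ⟨m, _, h3, h4⟩ := (dig_stt n i).1 h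
      exact h1 m h3 h4
    -- so a smaller requirement acts for each length
    have h2 : {n : ℕ | i < n ∧ ∃ x, x ≠ 0 ∧ Nat.log 2 x = n ∧ U e x ≠ 0}.Finite := by
      refine Set.Finite.of_finite_image (f := ac U) ((Set.finite_Iio i).subset ?_) ?_
      · rintro _ ⟨n, ⟨hn, x, hx0, hx, hUx⟩, rfl⟩
        have h3 := ac_le hn (h0 n) hx hx0 (by rw [he]; exact hUx)
        rw [Set.mem_Iio]
        rcases Nat.lt_or_eq_of_le h3 with h4 | h4
        · exact h4
        · exact absurd hn (h1 n h4)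
      · rintro m ⟨hm, x, hx0, hx, hUx⟩ n ⟨hn, y, hy0, hy, hUy⟩ hmn
        have h3 := ac_le hm (h0 m) hx hx0 (by rw [he]; exact hUx)
        have h4 := ac_le hn (h0 n) hy hy0 (by rw [he]; exact hUy)
        exact ac_inj (by omega) (by omega) hmn
    obtain ⟨m, hm⟩ := h2.bddAbove
    refine hinf ((Set.finite_Iio (2 ^ (max m i + 1))).subset ?_)
    rintro x ⟨hx0, hUx⟩
    rw [Set.mem_Iio]
    refine lt_of_lt_of_le (Nat.lt_pow_succ_log_self (by norm_num) x)
      (Nat.pow_le_pow_right (by norm_num) ?_)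
    rcases Nat.lt_or_ge i (Nat.log 2 x) with h | h
    · have := hm ⟨h, x, hx0, rfl, hUx⟩
      omega
    · omega

end Pool.Agent.Helper31.Gen5
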