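import Mathlib

/-!
# Hardness of a language for a machine: definition
-/

namespace Pool.Agent.Helper31.Gen5

/-- The language `L` and its complement are hard for a machine. `Acc w α` means that the machine accepts
the word `w` with the advice word `α`, and `Good w α` means that it does so within certain bounds. Let
`M` be `L` or the complement of `L`, and let `m` be the length of `α`.

* `avg`: the machine is correct for `M` within the bounds on at most half of the words of length `n`,
  up to a small number.
* `rel`: if the machine accepts `E` words of length `n` which are not in `M`, then it accepts within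
  the bounds at most `(√E + c' (m + 1) 2 ^ (m / (2 c))) ^ 2` words of length `n` in `M`.
* `ae`: if the machine without advice accepts only finitely many words which are not in `M`, then it
  accepts only finitely many words within the bounds. -/
structure Hard (L : Set (List Bool)) (c : ℕ) (Acc Good : List Bool → List Bool → Prop) : Prop where
  avg : ∃ c' : ℝ, ∀ (n : ℕ) (α : List Bool), ∀ M, M = L ∨ M = Lᶜ →
    ({w : List Bool | w.length = n ∧ (Acc w α → w ∈ M) ∧ (w ∈ M → Good w α)}.ncard : ℝ) ≤
      2 ^ n / 2 + c' * ((α.length : ℝ) + 1) * 2 ^ (((n : ℝ) + α.length / c) / 2)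
  rel : ∃ c' : ℝ, ∀ (n : ℕ) (α : List Bool), ∀ M, M = L ∨ M = Lᶜ →
    ({w : List Bool | w.length = n ∧ w ∈ M ∧ Good w α}.ncard : ℝ) ≤
      (Real.sqrt ({w : List Bool | w.length = n ∧ w ∉ M ∧ Acc w α}.ncard : ℝ) +
        c' * ((α.length : ℝ) + 1) * 2 ^ ((α.length : ℝ) / (2 * c))) ^ 2
  ae : ∀ M, M = L ∨ M = Lᶜ → {w : List Bool | w ∉ M ∧ Acc w []}.Finite →
    {w : List Bool | Good w []}.Finite

end Pool.Agent.Helper31.Gen5
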