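import Pool.Agent.Helper31.Gen5.Mom
import Pool.Agent.Helper86.Gen3.GOOD

/-!
# A good polynomial for all sets
-/

open Finset
open Pool.Agent.Helper65.Gen3

namespace Pool.Agent.Helper31.Gen5

/-- The discrepancy of the polynomial with number `s` on the set `S`. -/
def dS (p K : ℕ) (S : Finset ℕ) (s : ℕ) : ℤ := ∑ z ∈ S, (-1 : ℤ) ^ hs p K s z

/-- The bound for the code `e` and the advice with number `a`. -/
def wtr (k e a : ℕ) : ℕ :=
  (2 * k) ^ (2 * k + 1) * (Nat.log 2 a + 1) ^ 2 * 2 ^ (Nat.log 2 a + 2 * e + 4)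

/-- Markov's inequality. -/
theorem card_bad {k p : ℕ} (hk : 0 < k) (hp : p.Prime) (hp2 : 2 < p) (S : Finset ℕ)
    (hS : S ⊆ range p) (W : ℕ) :
    ((range (p ^ (2 * k))).filter fun s =>
      ((W * S.card ^ k : ℕ) : ℤ) < dS p (2 * k) S s ^ (2 * k)).card * W ≤
      (2 * k) ^ (2 * k + 1) * p ^ (2 * k) := by
  rcases Nat.eq_zero_or_pos S.card with h0 | hpos
  · have h1 : ((range (p ^ (2 * k))).filter fun s =>
        ((W * S.card ^ k : ℕ) : ℤ) < dS p (2 * k) S s ^ (2 * k)) = ∅ := by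
      refine filter_eq_empty_iff.2 fun s _ => ?_
      have h2 : S = ∅ := card_eq_zero.1 h0
      have h3 : dS p (2 * k) S s = 0 := by
        unfold dS
        rw [h2, sum_empty]
      rw [h3, zero_pow (by omega), not_lt]
      positivity
    rw [h1, card_empty, zero_mul]
    exact Nat.zero_le _
  have h0 : ((((range (p ^ (2 * k))).filter fun s =>
      ((W * S.card ^ k : ℕ) : ℤ) < dS p (2 * k) S s ^ (2 * k)).card * (W * S.card ^ k) : ℕ) : ℤ) ≤
      (2 * k) ^ (2 * k + 1) * p ^ (2 * k) * (S.card : ℤ) ^ k := by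
    refine le_trans ?_ (momS k p hk hp hp2 S hS)
    rw [Nat.cast_mul, ← nsmul_eq_mul]
    calc _ ≤ ∑ s ∈ (range (p ^ (2 * k))).filter fun s =>
            ((W * S.card ^ k : ℕ) : ℤ) < dS p (2 * k) S s ^ (2 * k), dS p (2 * k) S s ^ (2 * k) :=
          card_nsmul_le_sum _ _ _ fun s hs => (mem_filter.1 hs).2.le
      _ ≤ ∑ s ∈ range (p ^ (2 * k)), dS p (2 * k) S s ^ (2 * k) :=
          sum_le_sum_of_subset_of_nonneg (filter_subset _ _) fun s _ _ =>
            (even_two_mul k).pow_nonneg _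
  have h1 : ((range (p ^ (2 * k))).filter fun s =>
      ((W * S.card ^ k : ℕ) : ℤ) < dS p (2 * k) S s ^ (2 * k)).card * W * S.card ^ k ≤
      (2 * k) ^ (2 * k + 1) * p ^ (2 * k) * S.card ^ k := by
    rw [mul_assoc]
    exact_mod_cast h0
  exact Nat.le_of_mul_le_mul_right h1 (by positivity)

/-- For every family of sets there is a polynomial with a small discrepancy on all of them. -/
theorem good_sets (k n p : ℕ) (hk : 0 < k) (hp : p.Prime) (hp2 : 2 < p)
    (S : ℕ → ℕ → Finset ℕ) (hS : ∀ e a, S e a ⊆ range p) :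
    ∃ s < p ^ (2 * k), ∀ e < n + 1, ∀ a < 2 ^ (k * n + 1),
      dS p (2 * k) (S e a) s ^ (2 * k) ≤ ((wtr k e a * (S e a).card ^ k : ℕ) : ℤ) := by
  by_contra hno
  push Not at hno
  let B : ℕ → ℕ → Finset ℕ := fun e a =>
    (range (p ^ (2 * k))).filter fun s =>
      ((wtr k e a * (S e a).card ^ k : ℕ) : ℤ) < dS p (2 * k) (S e a) s ^ (2 * k)
  have h1 : range (p ^ (2 * k)) ⊆ (range (n + 1)).biUnion fun e =>
      (range (2 ^ (k * n + 1))).biUnion fun a => B e a := by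
    intro s hs
    obtain ⟨e, he, a, ha, hb⟩ := hno s (mem_range.1 hs)
    exact mem_biUnion.2 ⟨e, mem_range.2 he, mem_biUnion.2 ⟨a, mem_range.2 ha,
      mem_filter.2 ⟨hs, hb⟩⟩⟩
  have h2 : p ^ (2 * k) ≤ ∑ e ∈ range (n + 1), ∑ a ∈ range (2 ^ (k * n + 1)), (B e a).card := by
    calc p ^ (2 * k) = (range (p ^ (2 * k))).card := (card_range _).symm
      _ ≤ _ := card_le_card h1
      _ ≤ ∑ e ∈ range (n + 1), ((range (2 ^ (k * n + 1))).biUnion fun a => B e a).card :=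
        card_biUnion_le
      _ ≤ _ := sum_le_sum fun e _ => card_biUnion_le
  have hpp : (0 : ℝ) < (p : ℝ) ^ (2 * k) := by
    have : (0 : ℝ) < (p : ℝ) := by exact_mod_cast hp.pos
    positivity
  have hkk : (0 : ℝ) < (2 * (k : ℝ)) ^ (2 * k + 1) := by
    have : (0 : ℝ) < (k : ℝ) := by exact_mod_cast hk
    positivity
  have h3 : ∀ e a, ((B e a).card : ℝ) ≤
      (p : ℝ) ^ (2 * k) / 16 * (1 / 4 ^ e) *
        (Pool.Agent.Helper86.Gen3.gg (Nat.log 2 a) / 2 ^ Nat.log 2 a) := by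
    intro e a
    have h4 : ((B e a).card : ℝ) * (wtr k e a : ℝ) ≤
        (2 * (k : ℝ)) ^ (2 * k + 1) * (p : ℝ) ^ (2 * k) := by
      have h' : (B e a).card * wtr k e a ≤ (2 * k) ^ (2 * k + 1) * p ^ (2 * k) :=
        card_bad hk hp hp2 (S e a) (hS e a) (wtr k e a)
      exact_mod_cast h'
    have h5 : (wtr k e a : ℝ) = (2 * (k : ℝ)) ^ (2 * k + 1) * ((Nat.log 2 a : ℝ) + 1) ^ 2 *
        (2 ^ Nat.log 2 a * 4 ^ e * 16) := by
      have e1 : (2 : ℝ) ^ (Nat.log 2 a + 2 * e + 4) = 2 ^ Nat.log 2 a * 4 ^ e * 16 := by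
        rw [pow_add, pow_add, pow_mul (2 : ℝ) 2 e]
        norm_num
      unfold wtr
      push_cast
      rw [e1]
    have h6 : (0 : ℝ) < (2 * (k : ℝ)) ^ (2 * k + 1) * ((Nat.log 2 a : ℝ) + 1) ^ 2 *
        (2 ^ Nat.log 2 a * 4 ^ e * 16) := by positivity
    rw [h5, ← le_div_iff₀ h6] at h4
    refine h4.trans (le_of_eq ?_)
    unfold Pool.Agent.Helper86.Gen3.gg
    field_simp
  have h4 : (p : ℝ) ^ (2 * k) ≤
      ∑ e ∈ range (n + 1), ∑ a ∈ range (2 ^ (k * n + 1)), ((B e a).card : ℝ) := by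
    exact_mod_cast h2
  have h5 : ∑ e ∈ range (n + 1), ∑ a ∈ range (2 ^ (k * n + 1)), ((B e a).card : ℝ) ≤
      (p : ℝ) ^ (2 * k) / 16 * (4 / 3) * 3 := by
    calc _ ≤ ∑ e ∈ range (n + 1), ∑ a ∈ range (2 ^ (k * n + 1)),
          (p : ℝ) ^ (2 * k) / 16 * (1 / 4 ^ e) *
            (Pool.Agent.Helper86.Gen3.gg (Nat.log 2 a) / 2 ^ Nat.log 2 a) :=
          sum_le_sum fun e _ => sum_le_sum fun a _ => h3 e a
      _ = (p : ℝ) ^ (2 * k) / 16 * (∑ e ∈ range (n + 1), (1 : ℝ) / 4 ^ e) *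
          ∑ a ∈ range (2 ^ (k * n + 1)),
            (Pool.Agent.Helper86.Gen3.gg (Nat.log 2 a) / 2 ^ Nat.log 2 a) := by
          rw [mul_sum (range (n + 1)) _ ((p : ℝ) ^ (2 * k) / 16), sum_mul_sum]
      _ ≤ (p : ℝ) ^ (2 * k) / 16 * (4 / 3) * 3 := by
          refine mul_le_mul (mul_le_mul_of_nonneg_left
            (Pool.Agent.Helper78.Avg.sum_four _) (by positivity)) ?_
            (sum_nonneg fun a _ => by
              unfold Pool.Agent.Helper86.Gen3.gg
              positivity) (by positivity)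
          rw [Pool.Agent.Helper78.Avg.sum_adv Pool.Agent.Helper86.Gen3.gg (k * n + 1)]
          have h7 := Pool.Agent.Helper78.Avg.sum_inv_sq (k * n)
          have h8 : (0 : ℝ) ≤ 1 / (((k * n : ℕ) : ℝ) + 1) := by positivity
          have h9 : Pool.Agent.Helper86.Gen3.gg 0 = 1 := by
            unfold Pool.Agent.Helper86.Gen3.gg
            norm_num
          have h10 : ∑ m ∈ range (k * n + 1), Pool.Agent.Helper86.Gen3.gg m =
              ∑ m ∈ range (k * n + 1), (1 : ℝ) / ((m : ℝ) + 1) ^ 2 := rfl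
          rw [h9, h10]
          linarith
  linarith

end Pool.Agent.Helper31.Gen5
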