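import Pool.Agent.Helper31.Gen5.Rel
import Pool.Agent.Helper31.Gen5.BI
import Pool.Agent.Helper81.Gen4.Main

/-!
# Hardness on average, relative to the errors, and almost everywhere, for every model
-/

namespace Pool.Agent.Helper31.Gen5

open Pool.Agent.Helper65.LinSpace Pool.Agent.Helper78.Avg Pool.Agent.Helper78.Gen2 Finset
open Pool.Agent.Helper81.Gen4 (Q UQ UQ_spec finite_len ncard_len)

/-! ### Numbers of words -/

theorem fin_len {n : ℕ} {A : Set (List Bool)} (h : ∀ w ∈ A, w.length = n) : A.Finite :=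
  (finite_len n).subset h

/-- Sets which differ at one word at most. -/
theorem ncard_diff {n : ℕ} {A B : Set (List Bool)}
    (hB : ∀ w ∈ B, w.length = n) {v : ℕ} (h : ∀ w, w ∈ A → num w ≠ v → w ∈ B) :
    A.ncard ≤ B.ncard + 1 := by
  by_cases hv : ∃ w, w ∈ A ∧ num w = v
  · obtain ⟨w₀, h0, h1⟩ := hv
    have h2 : A ⊆ insert w₀ B := by
      intro w hw
      by_cases hwv : num w = v
      · left
        exact Pool.Agent.Helper78.Avg.num_injective (hwv.trans h1.symm)
      · right
        exact h w hw hwv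
    exact (Set.ncard_le_ncard h2 ((fin_len hB).insert w₀)).trans (Set.ncard_insert_le _ _)
  · push Not at hv
    exact (Set.ncard_le_ncard (fun w hw => h w hw (hv w hw)) (fin_len hB)).trans (Nat.le_succ _)

/-- Two disjoint parts. -/
theorem ncard_add {n : ℕ} (P R : List Bool → Prop) :
    {w : List Bool | w.length = n ∧ (P w ∧ R w)}.ncard +
      {w : List Bool | w.length = n ∧ (P w ∧ ¬R w)}.ncard =
      {w : List Bool | w.length = n ∧ P w}.ncard := by
  rw [← Set.ncard_union_eq ?_ (fin_len fun w hw => hw.1) (fin_len fun w hw => hw.1)]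
  · congr 1
    ext w
    simp only [Set.mem_union, Set.mem_ofPred_eq]
    tauto
  · rw [Set.disjoint_left]
    rintro w ⟨-, -, h1⟩ ⟨-, -, h2⟩
    exact h2 h1

theorem sqrt_le_of_diff {g f B : ℝ} (hg : 0 ≤ g) (hf : 0 ≤ f) (hB : 0 ≤ B)
    (h : g - f ≤ B * Real.sqrt (g + f)) : Real.sqrt g ≤ Real.sqrt f + B := by
  have hsg := Real.sqrt_nonneg g
  have hsf := Real.sqrt_nonneg f
  have ha := Real.sq_sqrt hg
  have hb := Real.sq_sqrt hf
  have h1 : Real.sqrt (g + f) ≤ Real.sqrt g + Real.sqrt f :=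
    Real.sqrt_le_iff.2 ⟨by positivity, by nlinarith⟩
  have h2 : g - f = (Real.sqrt g - Real.sqrt f) * (Real.sqrt g + Real.sqrt f) := by
    linear_combination (-1) * ha + hb
  rcases hsg.eq_or_lt with h3 | h3
  · rw [← h3]
    positivity
  · have h4 : (Real.sqrt g - Real.sqrt f) * (Real.sqrt g + Real.sqrt f) ≤
        B * (Real.sqrt g + Real.sqrt f) := by
      rw [← h2]
      exact h.trans (mul_le_mul_of_nonneg_left h1 hB)
    have h5 := le_of_mul_le_mul_right h4 (by positivity)
    linarith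

/-! ### The theorem for numeric devices -/

/-- The devices, and the device `0` which accepts everything. -/
def U1 (U : ℕ → ℕ → ℕ → ℕ) (e a x : ℕ) : ℕ := ifz e 1 (U (e - 1) a x)

theorem ls_U1 {U : ℕ → ℕ → ℕ → ℕ} (hU : LS (fun z : ℕ × ℕ × ℕ => U z.1 z.2.1 z.2.2)) :
    LS (fun z : ℕ × ℕ × ℕ => U1 U z.1 z.2.1 z.2.2) := by
  unfold U1
  refine LS.ifz (by fun_prop) (LS.const 1) ?_
  exact LS.comp (g := fun z : ℕ × ℕ × ℕ => U z.1 z.2.1 z.2.2)
    (f := fun z : ℕ × ℕ × ℕ => (z.1 - 1, z.2.1, z.2.2)) hU (by fun_prop)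

/-- The language has a small discrepancy on the set of the words of length `n` which are accepted by
any device, and every device which makes finitely many errors accepts finitely many words. -/
theorem discr_main (U : ℕ → ℕ → ℕ → ℕ) (k : ℕ) (hk : 0 < k)
    (hU : LS (fun z : ℕ × ℕ × ℕ => U z.1 z.2.1 z.2.2)) :
    ∃ L : Set (List Bool), DLINSPACE L ∧ ∀ M, M = L ∨ M = Lᶜ →
      (∀ (e n : ℕ) (a : List Bool),
        |({w : List Bool | w.length = n ∧ (U e (num a) (num w) ≠ 0 ∧ w ∈ M)}.ncard : ℝ) -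
          ({w : List Bool | w.length = n ∧ (U e (num a) (num w) ≠ 0 ∧ ¬w ∈ M)}.ncard : ℝ)| ≤
        3 * BB k e a.length * Real.sqrt
          ({w : List Bool | w.length = n ∧ U e (num a) (num w) ≠ 0}.ncard : ℝ)) ∧
      ∀ e : ℕ, {w : List Bool | U e (num []) (num w) ≠ 0 ∧ w ∉ M}.Finite →
        {w : List Bool | U e (num []) (num w) ≠ 0}.Finite := by
  have hU0 : LS (fun z : ℕ × ℕ => U z.1 (num []) z.2) :=
    LS.comp (g := fun z : ℕ × ℕ × ℕ => U z.1 z.2.1 z.2.2)
      (f := fun z : ℕ × ℕ => (z.1, num [], z.2)) hU (by fun_prop)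
  obtain ⟨F, hF, h1, h2⟩ := bi (U := fun e x => U e (num []) x) hU0 (ls_FR k hU)
  refine ⟨{w | F (num w) ≠ 0}, LS.dlinspace hF _ fun w => Iff.rfl, ?_⟩
  -- the discrepancy for the language itself
  have key : ∀ (e n : ℕ) (a : List Bool),
      |({w : List Bool | w.length = n ∧ (U e (num a) (num w) ≠ 0 ∧ F (num w) ≠ 0)}.ncard : ℝ) -
        ({w : List Bool | w.length = n ∧ (U e (num a) (num w) ≠ 0 ∧ ¬F (num w) ≠ 0)}.ncard : ℝ)| ≤
      3 * BB k e a.length * Real.sqrt
        ({w : List Bool | w.length = n ∧ U e (num a) (num w) ≠ 0}.ncard : ℝ) := by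
    intro e n a
    obtain ⟨v, hv⟩ := h1 n
    have hd := discr (U := U) hk e n a
    have hdn : {w : List Bool | w.length = n ∧
        (U e (num a) (num w) ≠ 0 ∧ FR U k (num w) = 0)} = {w : List Bool | w.length = n ∧
        (U e (num a) (num w) ≠ 0 ∧ ¬FR U k (num w) ≠ 0)} := by
      ext w
      simp only [Set.mem_ofPred_eq, not_not]
    rw [hdn] at hd
    have e1 := ncard_add (n := n) (fun w => U e (num a) (num w) ≠ 0) fun w => FR U k (num w) ≠ 0
    have e2 := ncard_add (n := n) (fun w => U e (num a) (num w) ≠ 0) fun w => F (num w) ≠ 0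
    have hFw : ∀ w : List Bool, w.length = n → num w ≠ v → F (num w) = FR U k (num w) :=
      fun w hw hne => hv (num w) (by rw [Pool.Agent.Helper65.LinSpace.log_num, hw]) hne
    have e3 : {w : List Bool | w.length = n ∧ (U e (num a) (num w) ≠ 0 ∧ F (num w) ≠ 0)}.ncard ≤
        {w : List Bool | w.length = n ∧
          (U e (num a) (num w) ≠ 0 ∧ FR U k (num w) ≠ 0)}.ncard + 1 :=
      ncard_diff (fun w hw => hw.1) (v := v) fun w hw hne =>
        ⟨hw.1, hw.2.1, by rw [← hFw w hw.1 hne]; exact hw.2.2⟩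
    have e4 : {w : List Bool | w.length = n ∧
          (U e (num a) (num w) ≠ 0 ∧ FR U k (num w) ≠ 0)}.ncard ≤
        {w : List Bool | w.length = n ∧ (U e (num a) (num w) ≠ 0 ∧ F (num w) ≠ 0)}.ncard + 1 :=
      ncard_diff (fun w hw => hw.1) (v := v) fun w hw hne =>
        ⟨hw.1, hw.2.1, by rw [hFw w hw.1 hne]; exact hw.2.2⟩
    generalize {w : List Bool | w.length = n ∧
      (U e (num a) (num w) ≠ 0 ∧ FR U k (num w) ≠ 0)}.ncard = u0 at *
    generalize {w : List Bool | w.length = n ∧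
      (U e (num a) (num w) ≠ 0 ∧ ¬FR U k (num w) ≠ 0)}.ncard = v0 at *
    generalize {w : List Bool | w.length = n ∧
      (U e (num a) (num w) ≠ 0 ∧ F (num w) ≠ 0)}.ncard = u at *
    generalize {w : List Bool | w.length = n ∧
      (U e (num a) (num w) ≠ 0 ∧ ¬F (num w) ≠ 0)}.ncard = v' at *
    generalize {w : List Bool | w.length = n ∧ U e (num a) (num w) ≠ 0}.ncard = N at *
    have e1' : (u0 : ℝ) + v0 = N := by exact_mod_cast e1
    have e2' : (u : ℝ) + v' = N := by exact_mod_cast e2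
    have e3' : (u : ℝ) ≤ u0 + 1 := by exact_mod_cast e3
    have e4' : (u0 : ℝ) ≤ u + 1 := by exact_mod_cast e4
    rw [e1'] at hd
    obtain ⟨hB1, -⟩ := one_le_BB hk e a.length
    have hB : 1 ≤ BB k e a.length := le_trans (one_le_pow₀ (by norm_num)) hB1
    rcases Nat.eq_zero_or_pos N with hN | hN
    · subst hN
      have hu : u = 0 := by omega
      have hv' : v' = 0 := by omega
      subst hu
      subst hv'
      simp
    · have hs : 1 ≤ Real.sqrt (N : ℝ) := by
        rw [Real.one_le_sqrt]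
        exact_mod_cast hN
      have h5 : 1 * 1 ≤ BB k e a.length * Real.sqrt (N : ℝ) :=
        mul_le_mul hB hs (by norm_num) (by linarith)
      rw [abs_le] at hd ⊢
      constructor <;> nlinarith [hd.1, hd.2]
  intro M hM
  constructor
  · intro e n a
    rcases hM with rfl | rfl
    · exact key e n a
    · have h3 := key e n a
      rw [abs_sub_comm] at h3
      have h4 : {w : List Bool | w.length = n ∧ (U e (num a) (num w) ≠ 0 ∧
          ¬w ∈ ({w : List Bool | F (num w) ≠ 0}ᶜ : Set (List Bool)))} =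
          {w : List Bool | w.length = n ∧ (U e (num a) (num w) ≠ 0 ∧ F (num w) ≠ 0)} := by
        ext w
        simp only [Set.mem_ofPred_eq, Set.mem_compl_iff, not_not]
      rw [h4]
      exact h3
  · intro e hfin
    by_contra hinf
    have hinf' : {x | x ≠ 0 ∧ U e (num []) x ≠ 0}.Infinite := by
      have h3 : num '' {w : List Bool | U e (num []) (num w) ≠ 0} ⊆
          {x | x ≠ 0 ∧ U e (num []) x ≠ 0} := by
        rintro _ ⟨w, hw, rfl⟩
        exact ⟨(Pool.Agent.Helper65.LinSpace.num_pos w).ne', hw⟩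
      exact ((Set.infinite_image_iff
        (Pool.Agent.Helper78.Avg.num_injective.injOn)).2 hinf).mono h3
    obtain ⟨n₁, hn₁⟩ := (hfin.image List.length).bddAbove
    obtain ⟨b, hb, hbM⟩ : ∃ b : ℕ, b < 2 ∧ ∀ w : List Bool, F (num w) = b → w ∉ M := by
      rcases hM with rfl | rfl
      · exact ⟨0, by norm_num, fun w hw h => h hw⟩
      · exact ⟨1, by norm_num, fun w hw h => h (by
          show F (num w) ≠ 0
          rw [hw]
          exact one_ne_zero)⟩
    obtain ⟨x, hx0, hxn, hUx, hFx⟩ := h2 e b (n₁ + 1) hb hinf'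
    obtain ⟨w, hw⟩ := Pool.Agent.Helper65.LinSpace.exists_num (Nat.pos_of_ne_zero hx0)
    rw [← hw] at hxn hUx hFx
    rw [Pool.Agent.Helper65.LinSpace.log_num] at hxn
    have h3 := hn₁ ⟨w, ⟨hUx, hbM w hFx⟩, rfl⟩
    omega

/-! ### The theorem for all models -/

theorem rpow_mul_half (n m k : ℕ) : (2 : ℝ) ^ ((m : ℝ) / (2 * k)) * Real.sqrt (2 ^ n) =
    2 ^ (((n : ℝ) + m / k) / 2) := by
  rw [Real.sqrt_eq_rpow, ← Real.rpow_natCast, ← Real.rpow_mul (by norm_num),
    ← Real.rpow_add (by norm_num)]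
  congr 1
  ring

theorem BB_mono {k e m : ℕ} (hk : 0 < k) : BB k 0 0 ≤ BB k (e + 1) m := by
  have hk1 : (1 : ℝ) ≤ k := by exact_mod_cast hk
  have hm : (0 : ℝ) ≤ m := Nat.cast_nonneg m
  have h1 : (1 : ℝ) ≤ 2 ^ ((m : ℝ) / (2 * k)) := one_le_rpow_two (by positivity)
  have h2 : (2 : ℝ) ^ (0 + 2) ≤ 2 ^ (e + 1 + 2) := pow_le_pow_right₀ (by norm_num) (by omega)
  unfold BB
  have h3 : (2 : ℝ) ^ (((0 : ℕ) : ℝ) / (2 * k)) = 1 := by simp
  rw [h3]
  gcongr
  linarith

/-- **Hardness on average, relative to the errors, and almost everywhere, for every model.** There is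
one language such that for all machines, given by the predicates `Acc w y` (the machine accepts `w`
with the additional word `y`) and `Good w y` (it does so within the bounds), which have a code `e` (for
long words), used with the acceptance condition `Q (c n)` for the last letters of `y`: the machine is
correct on at most about half of the words of length `n`, even with almost `k n` bits of advice; if it
accepts `E` words of length `n` which are not in the language, then it accepts within the bounds at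
most `(√E + c' (m + 1) 2 ^ (m / (2 k))) ^ 2` words of length `n` in the language, `m` being the number
of bits of advice; and if it accepts only finitely many words outside the language (without advice)
then it accepts only finitely many words within the bounds. The same is true for the complement. -/
theorem q_main_rel (acc : ℕ → ℕ → ℕ → ℕ → ℕ) (N : ℕ → ℕ)
    (hacc : LS (fun z : ℕ × ℕ × ℕ × ℕ => acc z.1 z.2.1 z.2.2.1 z.2.2.2)) (hN : LS N) (c k : ℕ)
    (hk : 0 < k) :
    ∃ L : Set (List Bool), DLINSPACE L ∧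
      ∀ (Acc Good : List Bool → List Bool → Prop),
        (∃ e n₀ : ℕ, ∀ w y : List Bool, n₀ ≤ w.length →
          (∀ S < N (num w), acc e (num w) (num y) S ≠ 0 → Acc w y) ∧
          (Good w y → ∃ S < N (num w), acc e (num w) (num y) S ≠ 0)) →
        (∃ c' : ℝ, ∀ (n : ℕ) (α : List Bool), ∀ M, M = L ∨ M = Lᶜ →
          ({w : List Bool | w.length = n ∧
            (Q (c * n) (fun v => Acc w (α ++ v)) → w ∈ M) ∧
            (w ∈ M → Q (c * n) fun v => Good w (α ++ v))}.ncard : ℝ) ≤
          2 ^ n / 2 + c' * ((α.length : ℝ) + 1) * 2 ^ (((n : ℝ) + α.length / k) / 2)) ∧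
        (∃ c' : ℝ, ∀ (n : ℕ) (α : List Bool), ∀ M, M = L ∨ M = Lᶜ →
          ({w : List Bool | w.length = n ∧ w ∈ M ∧
            Q (c * n) fun v => Good w (α ++ v)}.ncard : ℝ) ≤
          (Real.sqrt ({w : List Bool | w.length = n ∧ w ∉ M ∧
            Q (c * n) fun v => Acc w (α ++ v)}.ncard : ℝ) +
            c' * ((α.length : ℝ) + 1) * 2 ^ ((α.length : ℝ) / (2 * k))) ^ 2) ∧
        ∀ M, M = L ∨ M = Lᶜ → {w : List Bool | w ∉ M ∧ Q (c * w.length) (Acc w)}.Finite →
          {w : List Bool | Q (c * w.length) (Good w)}.Finite := by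
  obtain ⟨L, hL, hmain⟩ := discr_main (U1 (UQ acc N c)) k hk (ls_U1
    (LS.app3 fun he ha hx => Pool.Agent.Helper81.Gen4.LS.UQ hacc hN c he ha hx))
  refine ⟨L, hL, fun Acc Good ⟨e, n₀, he⟩ => ?_⟩
  have hU1 : ∀ a x, U1 (UQ acc N c) (e + 1) a x = UQ acc N c e a x := fun a x => by
    unfold U1
    rw [ifz_ne (Nat.succ_ne_zero e), Nat.add_sub_cancel]
  have hU0 : ∀ a x, U1 (UQ acc N c) 0 a x = 1 := fun a x => by
    unfold U1
    rw [ifz_zero]
  have hspec : ∀ (w α : List Bool), n₀ ≤ w.length →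
      (UQ acc N c e (num α) (num w) ≠ 0 → Q (c * w.length) fun v => Acc w (α ++ v)) ∧
      ((Q (c * w.length) fun v => Good w (α ++ v)) → UQ acc N c e (num α) (num w) ≠ 0) := by
    intro w α hw
    exact UQ_spec (acc := acc) (N := N) c e (w := w) (a := α)
      (Acc := fun v => Acc w (α ++ v)) (Good := fun v => Good w (α ++ v))
      (fun y S hS h => (he w (α ++ y) hw).1 S hS h) (fun y hy => (he w (α ++ y) hw).2 hy)
  obtain ⟨C₁, hC₁⟩ : ∃ C₁ : ℝ, C₁ = 3 * ((2 * k) ^ 2 * 2 ^ (e + 1 + 2)) := ⟨_, rfl⟩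
  have hBB : ∀ m : ℕ, 3 * BB k (e + 1) m = C₁ * ((m : ℝ) + 1) * 2 ^ ((m : ℝ) / (2 * k)) := by
    intro m
    rw [hC₁]
    unfold BB
    ring
  have hC0 : 0 ≤ C₁ := by
    rw [hC₁]
    positivity
  have hlen : ∀ (P : List Bool → Prop) (n : ℕ),
      ({w : List Bool | w.length = n ∧ P w}.ncard : ℝ) ≤ 2 ^ n := fun P n =>
    ncard_le_pow (fun w hw => hw.1)
  -- the relative bound for long words, for the device
  have hrel : ∀ (n : ℕ) (α : List Bool) (M : Set (List Bool)), (M = L ∨ M = Lᶜ) →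
      ({w : List Bool | w.length = n ∧ (UQ acc N c e (num α) (num w) ≠ 0 ∧ w ∈ M)}.ncard : ℝ) -
        ({w : List Bool | w.length = n ∧
          (UQ acc N c e (num α) (num w) ≠ 0 ∧ ¬w ∈ M)}.ncard : ℝ) ≤
        C₁ * ((α.length : ℝ) + 1) * 2 ^ ((α.length : ℝ) / (2 * k)) * Real.sqrt
          ({w : List Bool | w.length = n ∧ UQ acc N c e (num α) (num w) ≠ 0}.ncard : ℝ) := by
    intro n α M hM
    have h1 := (hmain M hM).1 (e + 1) n α
    simp only [hU1, hBB] at h1
    exact (le_abs_self _).trans h1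
  refine ⟨⟨2 * C₁ + 2 ^ n₀, ?_⟩, ⟨C₁ + 2 ^ n₀, ?_⟩, ?_⟩
  · intro n α M hM
    have hm0 : (0 : ℝ) ≤ α.length := Nat.cast_nonneg _
    obtain ⟨P, hP⟩ : ∃ P : ℝ, P = 2 ^ (((n : ℝ) + α.length / k) / 2) := ⟨_, rfl⟩
    have hP1 : 1 ≤ P := by
      rw [hP]
      exact one_le_rpow_two (by positivity)
    rw [← hP]
    have hN0 : (1 : ℝ) ≤ 2 ^ n₀ := one_le_pow₀ (by norm_num)
    rcases Nat.lt_or_ge n n₀ with hn | hn
    · have h2 := hlen (fun w => (Q (c * n) (fun v => Acc w (α ++ v)) → w ∈ M) ∧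
        (w ∈ M → Q (c * n) fun v => Good w (α ++ v))) n
      have h3 : (2 : ℝ) ^ n ≤ 2 ^ n₀ := pow_le_pow_right₀ (by norm_num) hn.le
      have h5 : (0 : ℝ) ≤ 2 ^ n := by positivity
      have h7 : (2 * C₁ + 2 ^ n₀) * 1 * 1 ≤ (2 * C₁ + 2 ^ n₀) * ((α.length : ℝ) + 1) * P := by
        refine mul_le_mul (mul_le_mul_of_nonneg_left (by linarith) (by positivity)) hP1
          (by norm_num) (by positivity)
      linarith
    · have h1 := hrel n α M hM
      have h2 := (hmain M hM).1 0 n []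
      simp only [hU0] at h2
      have key : {w : List Bool | w.length = n ∧
            (Q (c * n) (fun v => Acc w (α ++ v)) → w ∈ M) ∧
            (w ∈ M → Q (c * n) fun v => Good w (α ++ v))} ⊆
          {w : List Bool | w.length = n ∧ (UQ acc N c e (num α) (num w) ≠ 0 ∧ w ∈ M)} ∪
          {w : List Bool | w.length = n ∧ (¬w ∈ M ∧ ¬UQ acc N c e (num α) (num w) ≠ 0)} := by
        rintro w ⟨hw, hw1, hw2⟩
        obtain ⟨hs, hc⟩ := hspec w α (by omega)
        subst hw
        by_cases hwM : w ∈ M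
        · exact Or.inl ⟨rfl, hc (hw2 hwM), hwM⟩
        · exact Or.inr ⟨rfl, hwM, fun h => hwM (hw1 (hs h))⟩
      have h3 := (Set.ncard_le_ncard key ((fin_len fun w hw => hw.1).union
        (fin_len fun w hw => hw.1))).trans (Set.ncard_union_le _ _)
      have h3' : ({w : List Bool | w.length = n ∧
            (Q (c * n) (fun v => Acc w (α ++ v)) → w ∈ M) ∧
            (w ∈ M → Q (c * n) fun v => Good w (α ++ v))}.ncard : ℝ) ≤
          ({w : List Bool | w.length = n ∧
            (UQ acc N c e (num α) (num w) ≠ 0 ∧ w ∈ M)}.ncard : ℝ) +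
          ({w : List Bool | w.length = n ∧
            (¬w ∈ M ∧ ¬UQ acc N c e (num α) (num w) ≠ 0)}.ncard : ℝ) := by exact_mod_cast h3
      have h4 := ncard_add (n := n) (fun w => ¬w ∈ M) fun w => UQ acc N c e (num α) (num w) ≠ 0
      have h4' : ({w : List Bool | w.length = n ∧
            (¬w ∈ M ∧ UQ acc N c e (num α) (num w) ≠ 0)}.ncard : ℝ) +
          ({w : List Bool | w.length = n ∧
            (¬w ∈ M ∧ ¬UQ acc N c e (num α) (num w) ≠ 0)}.ncard : ℝ) =
          ({w : List Bool | w.length = n ∧ ¬w ∈ M}.ncard : ℝ) := by exact_mod_cast h4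
      have h5 : {w : List Bool | w.length = n ∧
            (¬w ∈ M ∧ UQ acc N c e (num α) (num w) ≠ 0)} =
          {w : List Bool | w.length = n ∧ (UQ acc N c e (num α) (num w) ≠ 0 ∧ ¬w ∈ M)} := by
        ext w
        simp only [Set.mem_ofPred_eq]
        tauto
      rw [h5] at h4'
      have h6 := ncard_add (n := n) (fun _ => True) fun w => w ∈ M
      have h7 : ({w : List Bool | w.length = n ∧ (True ∧ w ∈ M)}.ncard : ℝ) +
          ({w : List Bool | w.length = n ∧ (True ∧ ¬w ∈ M)}.ncard : ℝ) = 2 ^ n := by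
        have h8 : {w : List Bool | w.length = n ∧ True}.ncard = 2 ^ n := by
          simpa using ncard_len n
        rw [h8] at h6
        exact_mod_cast h6
      have h9 : {w : List Bool | w.length = n ∧ ((1 : ℕ) ≠ 0 ∧ w ∈ M)} =
          {w : List Bool | w.length = n ∧ (True ∧ w ∈ M)} := by
        ext w
        simp
      have h10 : {w : List Bool | w.length = n ∧ ((1 : ℕ) ≠ 0 ∧ ¬w ∈ M)} =
          {w : List Bool | w.length = n ∧ (True ∧ ¬w ∈ M)} := by
        ext w
        simp
      have h11 : {w : List Bool | w.length = n ∧ (1 : ℕ) ≠ 0}.ncard = 2 ^ n := by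
        simpa using ncard_len n
      have h12 : {w : List Bool | w.length = n ∧ (True ∧ ¬w ∈ M)} =
          {w : List Bool | w.length = n ∧ ¬w ∈ M} := by
        ext w
        simp
      rw [h9, h10, h11, List.length_nil] at h2
      rw [h12] at h2 h7
      push_cast at h2
      have hA := hlen (fun w => UQ acc N c e (num α) (num w) ≠ 0) n
      have hsA := Real.sqrt_le_sqrt hA
      have hBm := BB_mono (e := e) (m := α.length) hk
      have hB3 := hBB α.length
      have hs0 := Real.sqrt_nonneg ((2 : ℝ) ^ n)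
      have hCm : 0 ≤ C₁ * ((α.length : ℝ) + 1) * 2 ^ ((α.length : ℝ) / (2 * k)) := by positivity
      have h13 := (abs_le.1 h2).1
      have h14 : C₁ * ((α.length : ℝ) + 1) * 2 ^ ((α.length : ℝ) / (2 * k)) * Real.sqrt
          ({w : List Bool | w.length = n ∧ UQ acc N c e (num α) (num w) ≠ 0}.ncard : ℝ) ≤
          C₁ * ((α.length : ℝ) + 1) * 2 ^ ((α.length : ℝ) / (2 * k)) * Real.sqrt (2 ^ n) :=
        mul_le_mul_of_nonneg_left hsA hCm
      have h15 : 3 * BB k 0 0 * Real.sqrt (2 ^ n) ≤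
          C₁ * ((α.length : ℝ) + 1) * 2 ^ ((α.length : ℝ) / (2 * k)) * Real.sqrt (2 ^ n) := by
        rw [← hB3]
        exact mul_le_mul_of_nonneg_right (by linarith) hs0
      have h16 : C₁ * ((α.length : ℝ) + 1) * 2 ^ ((α.length : ℝ) / (2 * k)) * Real.sqrt (2 ^ n) =
          C₁ * ((α.length : ℝ) + 1) * P := by
        rw [hP, ← rpow_mul_half]
        ring
      have h17 : 0 ≤ 2 ^ n₀ * ((α.length : ℝ) + 1) * P := by positivity
      have h18 : (2 * C₁ + 2 ^ n₀) * ((α.length : ℝ) + 1) * P =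
          2 * (C₁ * ((α.length : ℝ) + 1) * P) + 2 ^ n₀ * ((α.length : ℝ) + 1) * P := by ring
      have h19 : 0 ≤ C₁ * ((α.length : ℝ) + 1) * P := by positivity
      rw [h18]
      linarith
  · intro n α M hM
    have hm0 : (0 : ℝ) ≤ α.length := Nat.cast_nonneg _
    have hR1 : (1 : ℝ) ≤ 2 ^ ((α.length : ℝ) / (2 * k)) := one_le_rpow_two (by positivity)
    have hN0 : (1 : ℝ) ≤ 2 ^ n₀ := one_le_pow₀ (by norm_num)
    have hE0 := Real.sqrt_nonneg ({w : List Bool | w.length = n ∧ w ∉ M ∧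
            Q (c * n) fun v => Acc w (α ++ v)}.ncard : ℝ)
    obtain ⟨R, hR⟩ : ∃ R : ℝ, R = ((α.length : ℝ) + 1) * 2 ^ ((α.length : ℝ) / (2 * k)) :=
      ⟨_, rfl⟩
    have hR1' : 1 ≤ R := by
      rw [hR]
      nlinarith
    have e1 : (C₁ + 2 ^ n₀) * ((α.length : ℝ) + 1) * 2 ^ ((α.length : ℝ) / (2 * k)) =
        C₁ * R + 2 ^ n₀ * R := by
      rw [hR]
      ring
    rw [e1]
    have hCR : 0 ≤ C₁ * R := by positivity
    have hNR : (2 : ℝ) ^ n₀ ≤ 2 ^ n₀ * R := le_mul_of_one_le_right (by positivity) hR1'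
    rcases Nat.lt_or_ge n n₀ with hn | hn
    · have h2 := hlen (fun w => w ∈ M ∧ Q (c * n) fun v => Good w (α ++ v)) n
      have h3 : (2 : ℝ) ^ n ≤ 2 ^ n₀ := pow_le_pow_right₀ (by norm_num) hn.le
      nlinarith
    · have h1 := hrel n α M hM
      have h4 := ncard_add (n := n) (fun w => UQ acc N c e (num α) (num w) ≠ 0) fun w => w ∈ M
      have h4' : ({w : List Bool | w.length = n ∧
            (UQ acc N c e (num α) (num w) ≠ 0 ∧ w ∈ M)}.ncard : ℝ) +
          ({w : List Bool | w.length = n ∧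
            (UQ acc N c e (num α) (num w) ≠ 0 ∧ ¬w ∈ M)}.ncard : ℝ) =
          ({w : List Bool | w.length = n ∧ UQ acc N c e (num α) (num w) ≠ 0}.ncard : ℝ) := by
        exact_mod_cast h4
      rw [← h4', mul_assoc C₁, ← hR] at h1
      have h5 := sqrt_le_of_diff (Nat.cast_nonneg _) (Nat.cast_nonneg _) hCR h1
      have h6 : ({w : List Bool | w.length = n ∧ w ∈ M ∧
            Q (c * n) fun v => Good w (α ++ v)}.ncard : ℝ) ≤
          ({w : List Bool | w.length = n ∧
            (UQ acc N c e (num α) (num w) ≠ 0 ∧ w ∈ M)}.ncard : ℝ) := by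
        have h := Set.ncard_le_ncard (s := {w : List Bool | w.length = n ∧ w ∈ M ∧
            Q (c * n) fun v => Good w (α ++ v)}) (t := {w : List Bool | w.length = n ∧
            (UQ acc N c e (num α) (num w) ≠ 0 ∧ w ∈ M)}) (by
          rintro w ⟨hw, hwM, hq⟩
          subst hw
          exact ⟨rfl, (hspec w α hn).2 hq, hwM⟩) (fin_len fun w hw => hw.1)
        exact_mod_cast h
      have h7 : ({w : List Bool | w.length = n ∧
            (UQ acc N c e (num α) (num w) ≠ 0 ∧ ¬w ∈ M)}.ncard : ℝ) ≤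
          ({w : List Bool | w.length = n ∧ w ∉ M ∧
            Q (c * n) fun v => Acc w (α ++ v)}.ncard : ℝ) := by
        have h := Set.ncard_le_ncard (s := {w : List Bool | w.length = n ∧
            (UQ acc N c e (num α) (num w) ≠ 0 ∧ ¬w ∈ M)}) (t := {w : List Bool | w.length = n ∧
            w ∉ M ∧ Q (c * n) fun v => Acc w (α ++ v)}) (by
          rintro w ⟨hw, hq, hwM⟩
          subst hw
          exact ⟨rfl, hwM, (hspec w α hn).1 hq⟩) (fin_len fun w hw => hw.1)
        exact_mod_cast h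
      have h8 := (Real.sqrt_le_sqrt h6).trans h5
      have h9 := Real.sqrt_le_sqrt h7
      have h10 := Real.sq_sqrt (Nat.cast_nonneg (α := ℝ) ({w : List Bool | w.length = n ∧ w ∈ M ∧
            Q (c * n) fun v => Good w (α ++ v)}.ncard))
      have h11 := Real.sqrt_nonneg ({w : List Bool | w.length = n ∧ w ∈ M ∧
            Q (c * n) fun v => Good w (α ++ v)}.ncard : ℝ)
      rw [← h10]
      refine pow_le_pow_left₀ h11 ?_ 2
      have h12 : (0 : ℝ) ≤ 2 ^ n₀ * R := by positivity
      linarith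
  · intro M hM hfin
    have h1 : {w : List Bool | UQ acc N c e (num []) (num w) ≠ 0 ∧ w ∉ M}.Finite := by
      refine (hfin.union (List.finite_length_lt Bool n₀)).subset ?_
      rintro w ⟨hw1, hw2⟩
      rcases Nat.lt_or_ge w.length n₀ with hn | hn
      · exact Or.inr hn
      · exact Or.inl ⟨hw2, (hspec w [] hn).1 hw1⟩
    have h2 := (hmain M hM).2 (e + 1)
    simp only [hU1] at h2
    refine ((h2 h1).union (List.finite_length_lt Bool n₀)).subset ?_
    intro w hw
    rcases Nat.lt_or_ge w.length n₀ with hn | hn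
    · exact Or.inr hn
    · exact Or.inl ((hspec w [] hn).2 hw)

end Pool.Agent.Helper31.Gen5
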