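import Pool.Agent.Helper31.Gen5.Defs
import Pool.Agent.Helper31.Gen5.Main

/-!
# Hardness on average, relative to the errors, and almost everywhere, for every model
-/

namespace Pool.Agent.Helper31.Gen5

open Pool.Agent.Helper65.LinSpace
open Pool.Agent.Helper81.Gen4 (Q)

/-- Hardness for a machine gives hardness for a machine which accepts more words, and accepts less
words within the bounds. -/
theorem Hard.mono {L : Set (List Bool)} {c : ℕ} {Acc Good Acc' Good' : List Bool → List Bool → Prop}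
    (h : Hard L c Acc Good) (h1 : ∀ w α, Acc w α → Acc' w α) (h2 : ∀ w α, Good' w α → Good w α) :
    Hard L c Acc' Good' := by
  have hfin : ∀ n : ℕ, {w : List Bool | w.length = n}.Finite := fun n =>
    List.finite_length_eq Bool n
  refine ⟨?_, ?_, ?_⟩
  · obtain ⟨c', h4⟩ := h.avg
    refine ⟨c', fun n α M hM => le_trans (Nat.cast_le.2 (Set.ncard_le_ncard ?_
      ((hfin n).subset fun w hw => hw.1))) (h4 n α M hM)⟩
    rintro w ⟨h5, h6, h7⟩
    exact ⟨h5, fun h8 => h6 (h1 w α h8), fun h8 => h2 w α (h7 h8)⟩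
  · obtain ⟨c', h4⟩ := h.rel
    refine ⟨|c'|, fun n α M hM => le_trans (Nat.cast_le.2 (Set.ncard_le_ncard ?_
      ((hfin n).subset fun w hw => hw.1))) ((h4 n α M hM).trans ?_)⟩
    · rintro w ⟨h7, h8, h9⟩
      exact ⟨h7, h8, h2 w α h9⟩
    · have h7 : (0 : ℝ) ≤ ((α.length : ℝ) + 1) * 2 ^ ((α.length : ℝ) / (2 * c)) := by positivity
      have h8 : Real.sqrt ({w : List Bool | w.length = n ∧ w ∉ M ∧ Acc w α}.ncard : ℝ) ≤
          Real.sqrt ({w : List Bool | w.length = n ∧ w ∉ M ∧ Acc' w α}.ncard : ℝ) := by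
        refine Real.sqrt_le_sqrt (Nat.cast_le.2 (Set.ncard_le_ncard ?_
          ((hfin n).subset fun w hw => hw.1)))
        rintro w ⟨h9, h10, h11⟩
        exact ⟨h9, h10, h1 w α h11⟩
      have h9 := Real.sqrt_nonneg ({w : List Bool | w.length = n ∧ w ∉ M ∧ Acc w α}.ncard : ℝ)
      have h10 : c' * ((α.length : ℝ) + 1) * 2 ^ ((α.length : ℝ) / (2 * c)) ≤
          |c'| * ((α.length : ℝ) + 1) * 2 ^ ((α.length : ℝ) / (2 * c)) := by
        rw [mul_assoc, mul_assoc]
        exact mul_le_mul_of_nonneg_right (le_abs_self c') h7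
      have h11 : -(|c'| * ((α.length : ℝ) + 1) * 2 ^ ((α.length : ℝ) / (2 * c))) ≤
          c' * ((α.length : ℝ) + 1) * 2 ^ ((α.length : ℝ) / (2 * c)) := by
        rw [mul_assoc, mul_assoc, ← neg_mul]
        exact mul_le_mul_of_nonneg_right (neg_abs_le c') h7
      refine sq_le_sq' ?_ ?_ <;> linarith
  · intro M hM h4
    refine (h.ae M hM (h4.subset ?_)).subset ?_
    · rintro w ⟨h5, h6⟩
      exact ⟨h5, h1 w [] h6⟩
    · intro w hw
      exact h2 w [] hw

/-- **Hardness on average, relative to the errors, and almost everywhere, for every model.** There is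
one language such that `Hard` holds for all machines, given by the predicates `Acc w y` (the machine
accepts `w` with the additional word `y`) and `Good w y` (it does so within the bounds), which have a
code `e` (for long words), used with the acceptance condition `Q (c n)` for the last letters of `y`. -/
theorem q_hard (acc : ℕ → ℕ → ℕ → ℕ → ℕ) (N : ℕ → ℕ)
    (hacc : LS (fun z : ℕ × ℕ × ℕ × ℕ => acc z.1 z.2.1 z.2.2.1 z.2.2.2)) (hN : LS N) (c k : ℕ)
    (hk : 0 < k) :
    ∃ L : Set (List Bool), DLINSPACE L ∧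
      ∀ (Acc Good : List Bool → List Bool → Prop),
        (∃ e n₀ : ℕ, ∀ w y : List Bool, n₀ ≤ w.length →
          (∀ S < N (num w), acc e (num w) (num y) S ≠ 0 → Acc w y) ∧
          (Good w y → ∃ S < N (num w), acc e (num w) (num y) S ≠ 0)) →
        Hard L k (fun w α => Q (c * w.length) fun v => Acc w (α ++ v))
          (fun w α => Q (c * w.length) fun v => Good w (α ++ v)) := by
  obtain ⟨L, hL, h⟩ := q_main_rel acc N hacc hN c k hk
  refine ⟨L, hL, fun Acc Good hcode => ?_⟩
  obtain ⟨⟨c1, h1⟩, ⟨c2, h2⟩, h3⟩ := h Acc Good hcode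
  have hfin : ∀ n : ℕ, {w : List Bool | w.length = n}.Finite := fun n =>
    List.finite_length_eq Bool n
  refine ⟨⟨c1, fun n α M hM => ?_⟩, ⟨c2, fun n α M hM => ?_⟩, fun M hM => ?_⟩
  · refine le_trans (Nat.cast_le.2 (Set.ncard_le_ncard ?_ ((hfin n).subset fun w hw => hw.1)))
      (h1 n α M hM)
    rintro w ⟨hw, h4, h5⟩
    subst hw
    exact ⟨rfl, h4, h5⟩
  · have e1 : {w : List Bool | w.length = n ∧ w ∈ M ∧
        Q (c * w.length) fun v => Good w (α ++ v)} = {w : List Bool | w.length = n ∧ w ∈ M ∧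
        Q (c * n) fun v => Good w (α ++ v)} := by
      ext w
      simp only [Set.mem_ofPred_eq]
      refine and_congr_right fun hw => ?_
      rw [hw]
    have e2 : {w : List Bool | w.length = n ∧ w ∉ M ∧
        Q (c * w.length) fun v => Acc w (α ++ v)} = {w : List Bool | w.length = n ∧ w ∉ M ∧
        Q (c * n) fun v => Acc w (α ++ v)} := by
      ext w
      simp only [Set.mem_ofPred_eq]
      refine and_congr_right fun hw => ?_
      rw [hw]
    rw [e1, e2]
    exact h2 n α M hM
  · intro h4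
    exact h3 M hM h4

/-- Hardness for a machine which ignores the advice. -/
theorem Hard.nil {L : Set (List Bool)} {c : ℕ} {Acc Good : List Bool → List Bool → Prop}
    (h : Hard L c Acc Good) : Hard L c (fun w _ => Acc w []) (fun w _ => Good w []) := by
  obtain ⟨c1, h1⟩ := h.avg
  obtain ⟨c2, h2⟩ := h.rel
  have hm0 : ∀ α : List Bool, (0 : ℝ) ≤ α.length := fun α => Nat.cast_nonneg _
  refine ⟨⟨|c1|, fun n α M hM => ?_⟩, ⟨|c2|, fun n α M hM => ?_⟩, h.ae⟩
  · refine (h1 n [] M hM).trans ?_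
    have e1 : (([] : List Bool).length : ℝ) = 0 := by simp
    rw [e1, zero_add, mul_one, zero_div, add_zero]
    have h3 : (1 : ℝ) ≤ (α.length : ℝ) + 1 := by
      have := hm0 α
      linarith
    have h4 : (2 : ℝ) ^ ((n : ℝ) / 2) ≤ 2 ^ (((n : ℝ) + α.length / c) / 2) := by
      refine Real.rpow_le_rpow_of_exponent_le (by norm_num) ?_
      have : (0 : ℝ) ≤ (α.length : ℝ) / c := by positivity
      linarith
    have h5 : (0 : ℝ) < 2 ^ ((n : ℝ) / 2) := by positivity
    have h6 : c1 * (2 : ℝ) ^ ((n : ℝ) / 2) ≤ |c1| * 1 * 2 ^ ((n : ℝ) / 2) := by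
      rw [mul_one]
      exact mul_le_mul_of_nonneg_right (le_abs_self c1) h5.le
    have h7 : |c1| * 1 * (2 : ℝ) ^ ((n : ℝ) / 2) ≤
        |c1| * ((α.length : ℝ) + 1) * 2 ^ (((n : ℝ) + α.length / c) / 2) := by
      gcongr
    linarith
  · refine (h2 n [] M hM).trans ?_
    have e1 : (([] : List Bool).length : ℝ) = 0 := by simp
    rw [e1, zero_add, mul_one, zero_div, Real.rpow_zero, mul_one]
    have h3 : (1 : ℝ) ≤ (α.length : ℝ) + 1 := by
      have := hm0 α
      linarith
    have h4 : (1 : ℝ) ≤ 2 ^ ((α.length : ℝ) / (2 * c)) :=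
      Real.one_le_rpow (by norm_num) (by positivity)
    have h5 : |c2| * 1 * 1 ≤ |c2| * ((α.length : ℝ) + 1) * 2 ^ ((α.length : ℝ) / (2 * c)) := by
      gcongr
    have h6 := Real.sqrt_nonneg ({w : List Bool | w.length = n ∧ w ∉ M ∧ Acc w []}.ncard : ℝ)
    have h7 := le_abs_self c2
    have h8 := neg_abs_le c2
    refine sq_le_sq' ?_ ?_ <;> linarith

end Pool.Agent.Helper31.Gen5
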