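import Pool.Agent.Helper65.Gen3.Mom
import Pool.Agent.Helper19.Gen3.IND

/-!
# The moment of order `2 k` of the discrepancy on a set
-/

namespace Pool.Agent.Helper31.Gen5

open Pool.Agent.Helper65.LinSpace Pool.Agent.Helper78.Avg Finset
open Pool.Agent.Helper65.Gen3

theorem card_values {m d : ℕ} (S : Finset ℕ) :
    ((Fintype.piFinset fun _ : Fin m => S).filter fun τ => (univ.image τ).card = d).card ≤
      S.card ^ d * d ^ m := by
  classical
  let G : Finset ((Fin d → ℕ) × (Fin m → Fin d)) :=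
    (Fintype.piFinset fun _ : Fin d => S) ×ˢ univ
  have hG : G.card = S.card ^ d * d ^ m := by
    rw [card_product, Fintype.card_piFinset]
    simp
  rw [← hG]
  refine le_trans (card_le_card ?_) (card_image_le (s := G) (f := fun g => g.1 ∘ g.2))
  intro τ hτ
  obtain ⟨h1, h2⟩ := mem_filter.1 hτ
  rw [Fintype.mem_piFinset] at h1
  let e := (univ.image τ).equivFinOfCardEq h2
  have hmem : ∀ i, τ i ∈ univ.image τ := fun i => mem_image_of_mem _ (mem_univ _)
  refine mem_image.2 ⟨(fun j => ((e.symm j : {x // x ∈ univ.image τ}) : ℕ),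
    fun i => e ⟨τ i, hmem i⟩), ?_, ?_⟩
  · refine mem_product.2 ⟨Fintype.mem_piFinset.2 fun j => ?_, mem_univ _⟩
    obtain ⟨i, _, hi⟩ := mem_image.1 (e.symm j).2
    show ((e.symm j : {x // x ∈ univ.image τ}) : ℕ) ∈ S
    rw [← hi]
    exact h1 i
  · funext i
    show ((e.symm (e ⟨τ i, hmem i⟩) : {x // x ∈ univ.image τ}) : ℕ) = τ i
    rw [Equiv.symm_apply_apply]

theorem sum_pow_le {k p : ℕ} (hk : 0 < k) {S : Finset ℕ} (hN : 1 ≤ S.card) (hp : S.card ≤ p) :
    ∑ τ ∈ Fintype.piFinset fun _ : Fin (2 * k) => S, p ^ (2 * k - (odds τ).card) ≤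
      (2 * k) ^ (2 * k + 1) * p ^ (2 * k) * S.card ^ k := by
  classical
  have hmaps : ∀ τ ∈ Fintype.piFinset fun _ : Fin (2 * k) => S,
      (univ.image τ).card ∈ Icc 1 (2 * k) := by
    intro τ _
    refine mem_Icc.2 ⟨card_pos.2 ⟨τ ⟨0, by omega⟩, mem_image_of_mem _ (mem_univ _)⟩, ?_⟩
    refine card_image_le.trans ?_
    simp
  rw [← sum_fiberwise_of_maps_to hmaps]
  have hd : ∀ d ∈ Icc 1 (2 * k),
      ∑ τ ∈ (Fintype.piFinset fun _ : Fin (2 * k) => S).filter
        (fun τ => (univ.image τ).card = d), p ^ (2 * k - (odds τ).card) ≤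
      (2 * k) ^ (2 * k) * p ^ (2 * k) * S.card ^ k := by
    intro d hd
    obtain ⟨_, hd2⟩ := mem_Icc.1 hd
    have h1 : S.card ^ d * ∑ τ ∈ (Fintype.piFinset fun _ : Fin (2 * k) => S).filter
        (fun τ => (univ.image τ).card = d), p ^ (2 * k - (odds τ).card) ≤
        S.card ^ d * ((2 * k) ^ (2 * k) * p ^ (2 * k) * S.card ^ k) := by
      rw [mul_sum]
      calc _ ≤ ∑ τ ∈ (Fintype.piFinset fun _ : Fin (2 * k) => S).filter
            (fun τ => (univ.image τ).card = d), S.card ^ k * p ^ (2 * k) := by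
            refine sum_le_sum fun τ hτ => ?_
            have h2 := (mem_filter.1 hτ).2
            have h3 := two_card_le τ
            have h4 : (odds τ).card ≤ 2 * k := by
              refine (card_filter_le _ _).trans (card_image_le.trans ?_)
              simp
            rw [h2] at h3
            exact mom_aux hN hp h3 h4
        _ = _ * (S.card ^ k * p ^ (2 * k)) := by rw [sum_const, smul_eq_mul]
        _ ≤ (S.card ^ d * d ^ (2 * k)) * (S.card ^ k * p ^ (2 * k)) :=
            Nat.mul_le_mul_right _ (card_values S)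
        _ ≤ (S.card ^ d * (2 * k) ^ (2 * k)) * (S.card ^ k * p ^ (2 * k)) := by
            gcongr
        _ = _ := by ring
    exact Nat.le_of_mul_le_mul_left h1 (by positivity)
  refine (sum_le_sum hd).trans (le_of_eq ?_)
  rw [sum_const, Nat.card_Icc, smul_eq_mul]
  have : 2 * k + 1 - 1 = 2 * k := by omega
  rw [this]
  ring

/-- The moment of the discrepancy on a set `S` of numbers smaller than `p`. -/
theorem momS (k p : ℕ) (hk : 0 < k) (hp : p.Prime) (h2 : 2 < p) (S : Finset ℕ)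
    (hS : S ⊆ range p) :
    ∑ s ∈ range (p ^ (2 * k)), (∑ z ∈ S, (-1 : ℤ) ^ hs p (2 * k) s z) ^ (2 * k) ≤
      (2 * k) ^ (2 * k + 1) * p ^ (2 * k) * (S.card : ℤ) ^ k := by
  classical
  rcases Nat.eq_zero_or_pos S.card with h0 | hN1
  · rw [card_eq_zero] at h0
    subst h0
    have : 2 * k ≠ 0 := by omega
    have hk0 : k ≠ 0 := by omega
    simp [zero_pow this, zero_pow hk0]
  have hN : S.card ≤ p := by
    have := card_le_card hS
    rwa [card_range] at this
  have h1 : ∀ s, (∑ z ∈ S, (-1 : ℤ) ^ hs p (2 * k) s z) ^ (2 * k) =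
      ∑ τ ∈ Fintype.piFinset fun _ : Fin (2 * k) => S,
        ∏ z ∈ odds τ, (-1 : ℤ) ^ hs p (2 * k) s z := by
    intro s
    rw [sum_pow']
    refine sum_congr rfl fun τ _ => ?_
    rw [prod_odds τ fun z => hs p (2 * k) s z]
  rw [sum_congr rfl fun s _ => h1 s, sum_comm]
  have h3 : ∀ τ ∈ Fintype.piFinset fun _ : Fin (2 * k) => S,
      ∑ s ∈ range (p ^ (2 * k)),
        ∏ z ∈ odds τ, (-1 : ℤ) ^ hs p (2 * k) s z ≤ ((p ^ (2 * k - (odds τ).card) : ℕ) : ℤ) := by
    intro τ hτ
    rw [Fintype.mem_piFinset] at hτ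
    have h4 : odds τ ⊆ range p := by
      intro z hz
      obtain ⟨i, _, hi⟩ := mem_image.1 (mem_filter.1 hz).1
      have := hS (hτ i)
      rw [hi] at this
      exact this
    have h5 : (odds τ).card ≤ 2 * k := by
      refine (card_filter_le _ _).trans (card_image_le.trans ?_)
      simp
    rw [Pool.Agent.Helper19.Gen3.ind p (2 * k) hp h2 (odds τ) h4 h5]
    push_cast
    exact le_rfl
  refine (sum_le_sum h3).trans ?_
  have h7 := sum_pow_le (k := k) hk hN1 hN
  have h8 : (((∑ τ ∈ Fintype.piFinset fun _ : Fin (2 * k) => S,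
      p ^ (2 * k - (odds τ).card) : ℕ)) : ℤ) ≤
      (((2 * k) ^ (2 * k + 1) * p ^ (2 * k) * S.card ^ k : ℕ) : ℤ) := by exact_mod_cast h7
  rw [Nat.cast_sum] at h8
  refine h8.trans (le_of_eq ?_)
  push_cast
  ring

end Pool.Agent.Helper31.Gen5
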