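import Pool.Agent.Helper31.Gen5.GoodR
import Pool.Agent.Helper59.Gen3.LSH
import Pool.Agent.Helper30.Gen3.HARD

/-!
# A language with a small discrepancy on the sets accepted by all devices
-/

namespace Pool.Agent.Helper31.Gen5

open Pool.Agent.Helper65.LinSpace Pool.Agent.Helper78.Avg Finset
open Pool.Agent.Helper65.Gen3 (pP hs)

section defs

variable (U : ℕ → ℕ → ℕ → ℕ) (k : ℕ)

/-- The number of the accepted words of length `log x`. -/
def acN (x e a : ℕ) : ℕ :=
  ∑ z ∈ range (2 ^ Nat.log 2 x), lt01 0 (U e a (2 ^ Nat.log 2 x + z))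

/-- The number of the accepted words of length `log x` which are in the language of the polynomial. -/
noncomputable def upN (x e a s : ℕ) : ℕ :=
  ∑ z ∈ range (2 ^ Nat.log 2 x),
    lt01 0 (U e a (2 ^ Nat.log 2 x + z)) * (hs (pP (Nat.log 2 x)) (2 * k) s z % 2)

/-- The bound of the discrepancy. -/
def wtN (x e a : ℕ) : ℕ :=
  (2 * k) ^ (2 * k + 1) * (Nat.log 2 a + 1) ^ 2 *
    2 ^ (min (Nat.log 2 a) (k * Nat.log 2 x) + 2 * min e (Nat.log 2 x) + 4)

/-- Nonzero if the discrepancy is too large. -/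
noncomputable def vio (x e a s : ℕ) : ℕ := lt01 (wtN k x e a * acN U x e a ^ k)
  (((acN U x e a - 2 * upN U k x e a s) + (2 * upN U k x e a s - acN U x e a)) ^ (2 * k))

/-- The number of devices which have a too large discrepancy. -/
noncomputable def badN (x s : ℕ) : ℕ :=
  ∑ e ∈ range (Nat.log 2 x + 1), ∑ a ∈ range (2 ^ (k * Nat.log 2 x + 1)), vio U k x e a s

/-- The first good polynomial. -/
noncomputable def hid (x : ℕ) : ℕ := ∑ i ∈ range (pP (Nat.log 2 x) ^ (2 * k)),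
  ifz (∑ j ∈ range (i + 1), ifz (badN U k x j) 1 0) 1 0

/-- The language. -/
noncomputable def FR (x : ℕ) : ℕ :=
  hs (pP (Nat.log 2 x)) (2 * k) (hid U k x) (x - 2 ^ Nat.log 2 x) % 2

end defs

/-! ### Linear space -/

section ls

variable {α : Type} [Ctx α] {U : ℕ → ℕ → ℕ → ℕ} (k : ℕ)

theorem ls_acN (hU : LS (fun z : ℕ × ℕ × ℕ => U z.1 z.2.1 z.2.2)) {x e a : α → ℕ} (hx : LS x)
    (he : LS e) (ha : LS a) : LS (fun z => acN U (x z) (e z) (a z)) := by
  unfold acN
  refine LS.sum_le (N := fun z => 2 ^ Nat.log 2 (x z)) (B := fun _ => 1)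
    (f := fun z i => lt01 0 (U (e z) (a z) (2 ^ Nat.log 2 (x z) + i))) ?_ (by fun_prop)
      (LS.const 1) fun z i _ => lt01_le_one _ _
  have h : LS (fun z : α × ℕ => U (e z.1) (a z.1) (2 ^ Nat.log 2 (x z.1) + z.2)) :=
    LS.comp (g := fun z : ℕ × ℕ × ℕ => U z.1 z.2.1 z.2.2)
      (f := fun z : α × ℕ => (e z.1, a z.1, 2 ^ Nat.log 2 (x z.1) + z.2)) hU (by fun_prop)
  exact LS.lt01 (LS.const 0) h

theorem ls_upN (hU : LS (fun z : ℕ × ℕ × ℕ => U z.1 z.2.1 z.2.2)) {x e a s : α → ℕ} (hx : LS x)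
    (he : LS e) (ha : LS a) (hs' : LS s) :
    LS (fun z => upN U k (x z) (e z) (a z) (s z)) := by
  unfold upN
  refine LS.sum_le (N := fun z => 2 ^ Nat.log 2 (x z)) (B := fun _ => 1)
    (f := fun z i => lt01 0 (U (e z) (a z) (2 ^ Nat.log 2 (x z) + i)) *
      (hs (pP (Nat.log 2 (x z))) (2 * k) (s z) i % 2)) ?_ (by fun_prop)
      (LS.const 1) fun z i _ => ?_
  · have h : LS (fun z : α × ℕ => U (e z.1) (a z.1) (2 ^ Nat.log 2 (x z.1) + z.2)) :=
      LS.comp (g := fun z : ℕ × ℕ × ℕ => U z.1 z.2.1 z.2.2)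
        (f := fun z : α × ℕ => (e z.1, a z.1, 2 ^ Nat.log 2 (x z.1) + z.2)) hU (by fun_prop)
    have h2 : LS (fun z : α × ℕ => lt01 0 (U (e z.1) (a z.1) (2 ^ Nat.log 2 (x z.1) + z.2))) :=
      LS.lt01 (LS.const 0) h
    have h3 : LS (fun z : α × ℕ => hs (pP (Nat.log 2 (x z.1))) (2 * k) (s z.1) z.2) :=
      Pool.Agent.Helper59.Gen3.ls_hs (p := fun z : α × ℕ => pP (Nat.log 2 (x z.1)))
        (s := fun z => s z.1) (z := fun z => z.2) (2 * k)
        (Pool.Agent.Helper59.Gen3.ls_pP (by fun_prop)) (by fun_prop) (by fun_prop)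
        fun z => Pool.Agent.Helper59.Gen3.pP_pos _
    exact LS.mul h2 (LS.mod h3 (LS.const 2))
  · have h1 := lt01_le_one 0 (U (e z) (a z) (2 ^ Nat.log 2 (x z) + i))
    have h2 : hs (pP (Nat.log 2 (x z))) (2 * k) (s z) i % 2 ≤ 1 := by omega
    calc _ ≤ 1 * 1 := Nat.mul_le_mul h1 h2
      _ = 1 := rfl

theorem ls_wtN {x e a : α → ℕ} (hx : LS x) (he : LS e) (ha : LS a) :
    LS (fun z => wtN k (x z) (e z) (a z)) := by
  unfold wtN
  refine LS.mul (LS.mul (LS.const _) (by fun_prop)) ?_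
  refine LS.pow_of_le (f := fun _ => 2) (C := fun z => (x z + 2) ^ (2 * (2 * k + 4)))
    (LS.const 2) (by fun_prop) (LS.pow_const (by fun_prop) _) fun z => ?_
  refine le_trans ?_ (Pool.Agent.Helper78.Avg.two_pow_log_le (x z) (2 * k + 4))
  refine Nat.pow_le_pow_right (by norm_num) ?_
  have h1 := min_le_right (Nat.log 2 (a z)) (k * Nat.log 2 (x z))
  have h2 := min_le_right (e z) (Nat.log 2 (x z))
  have h3 : (2 * k + 4) * (Nat.log 2 (x z) + 1) =
      k * Nat.log 2 (x z) + k * Nat.log 2 (x z) + 4 * Nat.log 2 (x z) + 2 * k + 4 := by ring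
  omega

theorem ls_vio (hU : LS (fun z : ℕ × ℕ × ℕ => U z.1 z.2.1 z.2.2)) {x e a s : α → ℕ} (hx : LS x)
    (he : LS e) (ha : LS a) (hs : LS s) :
    LS (fun z => vio U k (x z) (e z) (a z) (s z)) := by
  unfold vio
  have h1 := ls_upN k hU hx he ha hs
  have h2 := ls_wtN k hx he ha
  have h3 := ls_acN hU hx he ha
  exact LS.lt01 (LS.mul h2 (LS.pow_const h3 k))
    (LS.pow_const (LS.add (LS.sub h3 (LS.mul (LS.const 2) h1))
      (LS.sub (LS.mul (LS.const 2) h1) h3)) (2 * k))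

theorem ls_badN (hU : LS (fun z : ℕ × ℕ × ℕ => U z.1 z.2.1 z.2.2)) {x s : α → ℕ} (hx : LS x)
    (hs : LS s) : LS (fun z => badN U k (x z) (s z)) := by
  unfold badN
  refine LS.sum_le (N := fun z => Nat.log 2 (x z) + 1) (B := fun z => 2 ^ (k * Nat.log 2 (x z) + 1))
    (f := fun z e => ∑ a ∈ range (2 ^ (k * Nat.log 2 (x z) + 1)), vio U k (x z) e a (s z))
    ?_ (by fun_prop) (Pool.Agent.Helper59.Gen3.ls_pow_log k hx) fun z i _ => ?_
  · refine LS.sum_le (N := fun z : α × ℕ => 2 ^ (k * Nat.log 2 (x z.1) + 1)) (B := fun _ => 1)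
      (f := fun z a => vio U k (x z.1) z.2 a (s z.1)) ?_
      (Pool.Agent.Helper59.Gen3.ls_pow_log k (x := fun z : α × ℕ => x z.1) (by fun_prop))
      (LS.const 1) fun z i _ => lt01_le_one _ _
    exact ls_vio (α := (α × ℕ) × ℕ) (x := fun z => x z.1.1) (e := fun z => z.1.2)
      (a := fun z => z.2) (s := fun z => s z.1.1) k hU (by fun_prop) (by fun_prop) (by fun_prop)
      (by fun_prop)
  · refine (sum_le_sum fun a _ => lt01_le_one _ _).trans ?_
    simp

theorem ls_hid (hU : LS (fun z : ℕ × ℕ × ℕ => U z.1 z.2.1 z.2.2)) {x : α → ℕ} (hx : LS x) :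
    LS (fun z => hid U k (x z)) := by
  unfold hid
  refine LS.sum_le (N := fun z => pP (Nat.log 2 (x z)) ^ (2 * k)) (B := fun _ => 1)
    (f := fun z i => ifz (∑ j ∈ range (i + 1), ifz (badN U k (x z) j) 1 0) 1 0) ?_
    (LS.pow_const (Pool.Agent.Helper59.Gen3.ls_pP hx) _) (LS.const 1) fun z i _ => ifz_le_one _
  refine LS.ifz ?_ (LS.const 1) (LS.const 0)
  refine LS.sum_le (N := fun z : α × ℕ => z.2 + 1) (B := fun _ => 1)
    (f := fun z j => ifz (badN U k (x z.1) j) 1 0) ?_ (by fun_prop)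
    (LS.const 1) fun z i _ => ifz_le_one _
  exact LS.ifz (ls_badN (α := (α × ℕ) × ℕ) (x := fun z => x z.1.1) (s := fun z => z.2) k hU
    (by fun_prop) (by fun_prop)) (LS.const 1) (LS.const 0)

theorem ls_FR (hU : LS (fun z : ℕ × ℕ × ℕ => U z.1 z.2.1 z.2.2)) : LS (FR U k) := by
  unfold FR
  have h := ls_hid k hU (x := fun x : ℕ => x) LS.id
  exact LS.mod (Pool.Agent.Helper59.Gen3.ls_hs (α := ℕ) (p := fun x => pP (Nat.log 2 x)) (2 * k)
    (Pool.Agent.Helper59.Gen3.ls_pP LS.id) h (by fun_prop)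
    fun x => Pool.Agent.Helper59.Gen3.pP_pos _) (LS.const 2)

end ls

/-! ### The discrepancy -/

variable {U : ℕ → ℕ → ℕ → ℕ} {k : ℕ}

theorem hid_spec {x : ℕ}
    (h : ∃ s < pP (Nat.log 2 x) ^ (2 * k), badN U k x s = 0) : badN U k x (hid U k x) = 0 := by
  classical
  obtain ⟨h1, h1'⟩ := Nat.find_spec h
  have h2 : ∀ j < Nat.find h, ifz (badN U k x j) 1 0 = 0 := fun j hj => by
    refine ifz_ne (fun h3 => ?_) _ _
    exact Nat.find_min h hj ⟨lt_trans hj h1, h3⟩
  have h3 : hid U k x = Nat.find h := by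
    unfold hid
    refine sum_lt_ind h1.le fun i hi => ?_
    by_cases h4 : i < Nat.find h
    · rw [if_pos h4, sum_eq_zero fun j hj => h2 j (by
        have := mem_range.1 hj
        omega)]
      rfl
    · rw [if_neg h4]
      refine ifz_ne (fun h5 => ?_) _ _
      have h6 := sum_eq_zero_iff.1 h5 _ (mem_range.2 (show Nat.find h < i + 1 by omega))
      rw [h1'] at h6
      exact absurd h6 (by simp [ifz])
  rw [h3]
  exact h1'

/-- The accepted words of length `n`, as numbers. -/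
def aS (U : ℕ → ℕ → ℕ → ℕ) (n e a : ℕ) : Finset ℕ :=
  (range (2 ^ n)).filter fun z => U e a (2 ^ n + z) ≠ 0

theorem lt01_zero_eq (v : ℕ) : lt01 0 v = if v ≠ 0 then 1 else 0 := by
  unfold lt01
  by_cases h : v = 0
  · simp [h]
  · simp [h, Nat.pos_of_ne_zero h]

theorem acN_eq (x e a : ℕ) : acN U x e a = (aS U (Nat.log 2 x) e a).card := by
  unfold acN aS
  rw [card_filter]
  exact sum_congr rfl fun z _ => lt01_zero_eq _

theorem upN_eq (x e a s : ℕ) : upN U k x e a s =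
    ((aS U (Nat.log 2 x) e a).filter fun z => hs (pP (Nat.log 2 x)) (2 * k) s z % 2 = 1).card := by
  unfold upN aS
  rw [filter_filter, card_filter]
  refine sum_congr rfl fun z _ => ?_
  rw [lt01_zero_eq]
  by_cases h : U e a (2 ^ Nat.log 2 x + z) = 0
  · simp [h]
  · rcases Nat.mod_two_eq_zero_or_one (hs (pP (Nat.log 2 x)) (2 * k) s z) with h2 | h2 <;>
      simp [h, h2]

/-- The discrepancy in terms of the numbers of words. -/
theorem dS_eq (p K : ℕ) (S : Finset ℕ) (s : ℕ) :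
    dS p K S s = (S.card : ℤ) - 2 * ((S.filter fun z => hs p K s z % 2 = 1).card : ℤ) := by
  unfold dS
  rw [card_filter, card_eq_sum_ones]
  push_cast
  rw [mul_sum, ← sum_sub_distrib]
  refine sum_congr rfl fun z _ => ?_
  rcases Nat.mod_two_eq_zero_or_one (hs p K s z) with h | h
  · rw [Even.neg_one_pow (Nat.even_iff.2 h), if_neg (by omega)]
    norm_num
  · rw [Odd.neg_one_pow (Nat.odd_iff.2 h), if_pos h]
    norm_num

theorem vio_eq_zero {x e a s : ℕ} (he : e ≤ Nat.log 2 x) (ha : Nat.log 2 a ≤ k * Nat.log 2 x) :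
    vio U k x e a s = 0 ↔
      dS (pP (Nat.log 2 x)) (2 * k) (aS U (Nat.log 2 x) e a) s ^ (2 * k) ≤
        ((wtr k e a * (aS U (Nat.log 2 x) e a).card ^ k : ℕ) : ℤ) := by
  have h1 : wtN k x e a = wtr k e a := by
    unfold wtN wtr
    rw [min_eq_left ha, min_eq_left he]
  unfold vio
  rw [h1, dS_eq, ← acN_eq, ← upN_eq]
  have h2 := Pool.Agent.Helper30.Gen3.pow_sub k (acN U x e a) (2 * upN U k x e a s)
  push_cast at h2
  rw [← h2]
  unfold lt01
  split_ifs with h3
  · simp only [false_iff, not_le]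
    exact_mod_cast h3
  · simp only [true_iff]
    exact_mod_cast not_lt.1 h3

theorem hid_good (hk : 0 < k) (x : ℕ) {e a : ℕ} (he : e ≤ Nat.log 2 x)
    (ha : a < 2 ^ (k * Nat.log 2 x + 1)) :
    dS (pP (Nat.log 2 x)) (2 * k) (aS U (Nat.log 2 x) e a) (hid U k x) ^ (2 * k) ≤
        ((wtr k e a * (aS U (Nat.log 2 x) e a).card ^ k : ℕ) : ℤ) := by
  have hlog : ∀ a < 2 ^ (k * Nat.log 2 x + 1), Nat.log 2 a ≤ k * Nat.log 2 x := by
    intro a ha
    rcases Nat.eq_zero_or_pos a with h | h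
    · rw [h]
      simp
    · have := (Nat.log_lt_iff_lt_pow (b := 2) (by norm_num) (by omega)).2 ha
      omega
  obtain ⟨hp1, hp2, -⟩ := nextPrime_spec (m := 2 ^ Nat.log 2 x + 2) (by positivity)
  have hpos : 0 < 2 ^ Nat.log 2 x := by positivity
  obtain ⟨s, hs, hgood⟩ := good_sets k (Nat.log 2 x) (pP (Nat.log 2 x)) hk hp1
    (by unfold pP; omega) (aS U (Nat.log 2 x)) (fun e a z hz => by
      have h1 := mem_range.1 (mem_filter.1 hz).1
      rw [mem_range]
      unfold pP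
      omega)
  have h1 : badN U k x s = 0 := by
    unfold badN
    refine sum_eq_zero fun e he => sum_eq_zero fun a ha => ?_
    have he' := mem_range.1 he
    have ha' := mem_range.1 ha
    exact (vio_eq_zero (by omega) (hlog a ha')).2 (hgood e he' a ha')
  have h2 := hid_spec ⟨s, hs, h1⟩
  unfold badN at h2
  rw [sum_eq_zero_iff] at h2
  have h3 := h2 e (mem_range.2 (by omega))
  rw [sum_eq_zero_iff] at h3
  exact (vio_eq_zero he (hlog a ha)).1 (h3 a (mem_range.2 ha))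

theorem acN_congr {x x' : ℕ} (h : Nat.log 2 x = Nat.log 2 x') (e a : ℕ) :
    acN U x e a = acN U x' e a := by
  unfold acN
  rw [h]

theorem upN_congr {x x' : ℕ} (h : Nat.log 2 x = Nat.log 2 x') (e a s : ℕ) :
    upN U k x e a s = upN U k x' e a s := by
  unfold upN
  rw [h]

theorem hid_congr {x x' : ℕ} (h : Nat.log 2 x = Nat.log 2 x') : hid U k x = hid U k x' := by
  have h1 : ∀ e a s, vio U k x e a s = vio U k x' e a s := fun e a s => by
    unfold vio wtN
    rw [upN_congr h, acN_congr h, h]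
  have h2 : ∀ s, badN U k x s = badN U k x' s := fun s => by
    unfold badN
    rw [h]
    exact sum_congr rfl fun e _ => sum_congr rfl fun a _ => h1 e a s
  unfold hid
  rw [h]
  simp only [h2]

theorem log_add {n z : ℕ} (hz : z < 2 ^ n) : Nat.log 2 (2 ^ n + z) = n := by
  rw [Nat.log_eq_iff (Or.inr ⟨by norm_num, by positivity⟩)]
  exact ⟨by omega, by rw [pow_succ]; omega⟩

/-- The number of the accepted words of length `n` in the language. -/
theorem ncard_up (e a n : ℕ) :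
    {w : List Bool | w.length = n ∧ (U e a (num w) ≠ 0 ∧ FR U k (num w) ≠ 0)}.ncard =
      ((aS U n e a).filter fun z => hs (pP n) (2 * k) (hid U k (2 ^ n)) z % 2 = 1).card := by
  classical
  rw [ncard_words n fun y => U e a y ≠ 0 ∧ FR U k y ≠ 0]
  unfold aS
  rw [filter_filter]
  congr 1
  refine filter_congr fun z hz => ?_
  have h1 := log_add (mem_range.1 hz)
  have h2 : FR U k (2 ^ n + z) = hs (pP n) (2 * k) (hid U k (2 ^ n)) z % 2 := by
    unfold FR
    rw [hid_congr (x := 2 ^ n + z) (x' := 2 ^ n) (by rw [h1, Nat.log_pow (by norm_num)]), h1,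
      Nat.add_sub_cancel_left]
  rw [h2]
  refine and_congr_right fun _ => ?_
  omega

/-- The number of the accepted words of length `n` outside the language. -/
theorem ncard_dn (e a n : ℕ) :
    {w : List Bool | w.length = n ∧ (U e a (num w) ≠ 0 ∧ FR U k (num w) = 0)}.ncard =
      ((aS U n e a).filter fun z => ¬hs (pP n) (2 * k) (hid U k (2 ^ n)) z % 2 = 1).card := by
  classical
  rw [ncard_words n fun y => U e a y ≠ 0 ∧ FR U k y = 0]
  unfold aS
  rw [filter_filter]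
  congr 1
  refine filter_congr fun z hz => ?_
  have h1 := log_add (mem_range.1 hz)
  have h2 : FR U k (2 ^ n + z) = hs (pP n) (2 * k) (hid U k (2 ^ n)) z % 2 := by
    unfold FR
    rw [hid_congr (x := 2 ^ n + z) (x' := 2 ^ n) (by rw [h1, Nat.log_pow (by norm_num)]), h1,
      Nat.add_sub_cancel_left]
  rw [h2]
  refine and_congr_right fun _ => ?_
  omega

/-- The constant of the discrepancy. -/
noncomputable def BB (k e m : ℕ) : ℝ :=
  (2 * k) ^ 2 * 2 ^ (e + 2) * ((m : ℝ) + 1) * 2 ^ ((m : ℝ) / (2 * k))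

theorem one_le_rpow_two {x : ℝ} (hx : 0 ≤ x) : (1 : ℝ) ≤ 2 ^ x :=
  Real.one_le_rpow (by norm_num) hx

theorem one_le_BB {k : ℕ} (hk : 0 < k) (e m : ℕ) : 2 ^ e ≤ BB k e m ∧
    (2 : ℝ) ^ ((m : ℝ) / (2 * k)) ≤ BB k e m := by
  have hk1 : (1 : ℝ) ≤ k := by exact_mod_cast hk
  have hK : (1 : ℝ) ≤ (2 * (k : ℝ)) ^ 2 := by nlinarith
  have h1 : (1 : ℝ) ≤ 2 ^ ((m : ℝ) / (2 * k)) := one_le_rpow_two (by positivity)
  have h2 : (1 : ℝ) ≤ 2 ^ (e + 2) := one_le_pow₀ (by norm_num)
  have h3 : (2 : ℝ) ^ e ≤ 2 ^ (e + 2) := pow_le_pow_right₀ (by norm_num) (by omega)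
  have hm : (0 : ℝ) ≤ m := Nat.cast_nonneg m
  unfold BB
  constructor
  · calc (2 : ℝ) ^ e = 1 * 2 ^ e * 1 * 1 := by ring
      _ ≤ _ := by
        gcongr
        linarith
  · calc (2 : ℝ) ^ ((m : ℝ) / (2 * k)) = 1 * 1 * 1 * 2 ^ ((m : ℝ) / (2 * k)) := by ring
      _ ≤ _ := by
        gcongr
        linarith

theorem auxp (A B C D : ℝ) (n : ℕ) :
    (A * B * C * D) ^ n = A ^ n * C ^ n * (D ^ n * B ^ n) := by
  rw [← mul_pow, ← mul_pow, ← mul_pow]
  congr 1
  ring

/-- **The discrepancy.** -/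
theorem discr (hk : 0 < k) (e n : ℕ) (a : List Bool) :
    |({w : List Bool | w.length = n ∧ (U e (num a) (num w) ≠ 0 ∧ FR U k (num w) ≠ 0)}.ncard : ℝ) -
      ({w : List Bool | w.length = n ∧ (U e (num a) (num w) ≠ 0 ∧ FR U k (num w) = 0)}.ncard : ℝ)|
      ≤ BB k e a.length * Real.sqrt
        (({w : List Bool | w.length = n ∧
          (U e (num a) (num w) ≠ 0 ∧ FR U k (num w) ≠ 0)}.ncard : ℝ) +
        ({w : List Bool | w.length = n ∧
          (U e (num a) (num w) ≠ 0 ∧ FR U k (num w) = 0)}.ncard : ℝ)) := by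
  rw [ncard_up, ncard_dn]
  set S := aS U n e (num a) with hS
  set s := hid U k (2 ^ n) with hs'
  set u := (S.filter fun z => hs (pP n) (2 * k) s z % 2 = 1).card with hu
  set v := (S.filter fun z => ¬hs (pP n) (2 * k) s z % 2 = 1).card with hv
  have huv : u + v = S.card := card_filter_add_card_filter_not _
  have huv' : (u : ℝ) + v = S.card := by exact_mod_cast huv
  have hcard : S.card ≤ 2 ^ n := by
    refine (card_filter_le _ _).trans ?_
    rw [card_range]
  have hcard' : (S.card : ℝ) ≤ 2 ^ n := by exact_mod_cast hcard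
  have hu0 : (0 : ℝ) ≤ u := Nat.cast_nonneg _
  have hv0 : (0 : ℝ) ≤ v := Nat.cast_nonneg _
  have htriv : |(u : ℝ) - v| ≤ S.card := by
    rw [abs_le]
    constructor <;> linarith
  rw [huv']
  have hS0 : (0 : ℝ) ≤ S.card := Nat.cast_nonneg _
  have hsq : (S.card : ℝ) = Real.sqrt S.card * Real.sqrt S.card := (Real.mul_self_sqrt hS0).symm
  obtain ⟨hB1, hB2⟩ := one_le_BB hk e a.length
  -- trivial cases
  have hbig : Real.sqrt (2 ^ n) ≤ BB k e a.length → |(u : ℝ) - v| ≤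
      BB k e a.length * Real.sqrt S.card := by
    intro h
    refine htriv.trans ?_
    conv_lhs => rw [hsq]
    exact mul_le_mul_of_nonneg_right ((Real.sqrt_le_sqrt hcard').trans h) (Real.sqrt_nonneg _)
  by_cases hen : n < e
  · refine hbig (le_trans ?_ hB1)
    rw [Real.sqrt_le_left (by positivity), ← pow_mul]
    exact pow_le_pow_right₀ (by norm_num) (by omega)
  by_cases ham : k * n < a.length
  · refine hbig (le_trans ?_ hB2)
    have hk0 : (0 : ℝ) < k := by exact_mod_cast hk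
    rw [Real.sqrt_eq_rpow, ← Real.rpow_natCast, ← Real.rpow_mul (by norm_num)]
    refine Real.rpow_le_rpow_of_exponent_le (by norm_num) ?_
    have h6 : (k : ℝ) * n ≤ a.length := by exact_mod_cast ham.le
    rw [le_div_iff₀ (by positivity)]
    linarith
  push Not at hen ham
  have hlog : Nat.log 2 (2 ^ n) = n := Nat.log_pow (by norm_num) n
  have hg := hid_good (U := U) hk (2 ^ n) (e := e) (a := num a) (by omega) (by
    rw [hlog]
    exact lt_of_lt_of_le (num_lt a) (Nat.pow_le_pow_right (by norm_num) (by omega)))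
  rw [hlog, ← hS, ← hs', dS_eq, ← hu] at hg
  have hd : ((S.card : ℤ) - 2 * (u : ℤ)) = (v : ℤ) - u := by
    have : (S.card : ℤ) = u + v := by exact_mod_cast huv.symm
    rw [this]
    ring
  rw [hd] at hg
  have hg2 : ((v : ℝ) - u) ^ (2 * k) ≤ (wtr k e (num a) : ℝ) * (S.card : ℝ) ^ k := by
    exact_mod_cast hg
  have hB0 : 0 ≤ BB k e a.length := le_trans (by positivity) hB1
  have hw : (wtr k e (num a) : ℝ) ≤ BB k e a.length ^ (2 * k) := by
    unfold wtr BB
    rw [Pool.Agent.Helper65.LinSpace.log_num]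
    push_cast
    have hk1 : (1 : ℝ) ≤ k := by exact_mod_cast hk
    have h3 : ((2 : ℝ) ^ ((a.length : ℝ) / (2 * k))) ^ (2 * k) = 2 ^ a.length := by
      rw [← Real.rpow_natCast, ← Real.rpow_mul (by norm_num), ← Real.rpow_natCast]
      congr 1
      push_cast
      field_simp
    have h5 : ((2 * (k : ℝ)) ^ 2 * 2 ^ (e + 2) * ((a.length : ℝ) + 1) *
          2 ^ ((a.length : ℝ) / (2 * k))) ^ (2 * k) =
        ((2 * (k : ℝ)) ^ 2) ^ (2 * k) * ((a.length : ℝ) + 1) ^ (2 * k) *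
          (2 ^ a.length * (2 ^ (e + 2)) ^ (2 * k)) := by
      rw [← h3]
      exact auxp _ _ _ _ _
    rw [h5]
    have h6 : (2 * (k : ℝ)) ^ (2 * k + 1) ≤ ((2 * (k : ℝ)) ^ 2) ^ (2 * k) := by
      rw [← pow_mul]
      exact pow_le_pow_right₀ (by linarith) (by nlinarith)
    have h7 : ((a.length : ℝ) + 1) ^ 2 ≤ ((a.length : ℝ) + 1) ^ (2 * k) :=
      pow_le_pow_right₀ (by have := Nat.cast_nonneg (α := ℝ) a.length; linarith) (by omega)
    have h8 : (2 : ℝ) ^ (a.length + 2 * e + 4) ≤ 2 ^ a.length * (2 ^ (e + 2)) ^ (2 * k) := by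
      have h9 : (2 : ℝ) ^ a.length * (2 ^ (e + 2)) ^ (2 * k) =
          2 ^ (a.length + (e + 2) * (2 * k)) := by
        rw [← pow_mul, ← pow_add]
      rw [h9]
      refine pow_le_pow_right₀ (by norm_num) ?_
      nlinarith
    gcongr
  have hsk : (S.card : ℝ) ^ k = Real.sqrt S.card ^ (2 * k) := by
    rw [pow_mul, Real.sq_sqrt hS0]
  have hfin : |(v : ℝ) - u| ^ (2 * k) ≤ (BB k e a.length * Real.sqrt S.card) ^ (2 * k) := by
    rw [(even_two_mul k).pow_abs, mul_pow, ← hsk]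
    exact hg2.trans (mul_le_mul_of_nonneg_right hw (pow_nonneg hS0 k))
  rw [abs_sub_comm]
  exact le_of_pow_le_pow_left₀ (by omega) (mul_nonneg hB0 (Real.sqrt_nonneg _)) hfin

end Pool.Agent.Helper31.Gen5
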